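import Mathlib

set_option autoImplicit false

/-!
# Sensitivity of the outputs of a reduction from parity to a promise problem with a gap
-/

namespace Pool.Agent.R562.RS

open Finset
open scoped Classical

/-- The input `x` with the bit `i` flipped. -/
def flip {N : ℕ} (x : Fin N → Bool) (i : Fin N) : Fin N → Bool := Function.update x i (!x i)

lemma flip_flip {N : ℕ} (x : Fin N → Bool) (i : Fin N) : flip (flip x i) i = x := by
  funext j
  by_cases h : j = i
  · subst h; simp [flip]
  · simp [flip, Function.update_of_ne h]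

lemma flip_same {N : ℕ} (x : Fin N → Bool) (i : Fin N) : flip x i i = !x i := by simp [flip]

lemma flip_ne {N : ℕ} (x : Fin N → Bool) {i j : Fin N} (h : j ≠ i) : flip x i j = x j := by
  simp [flip, Function.update_of_ne h]

/-- The number of ones is odd. -/
def Odd1 {N : ℕ} (x : Fin N → Bool) : Prop := Odd (univ.filter fun i => x i = true).card

lemma odd1_flip {N : ℕ} (x : Fin N → Bool) (i : Fin N) : Odd1 (flip x i) ↔ ¬ Odd1 x := by
  unfold Odd1
  by_cases hx : x i = true
  · have h1 : (univ.filter fun j => x j = true) =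
        insert i (univ.filter fun j => flip x i j = true) := by
      ext j
      simp only [mem_filter, mem_univ, true_and, mem_insert]
      by_cases hj : j = i
      · subst hj; simp [hx]
      · simp [hj, flip_ne x hj]
    have h2 : i ∉ (univ.filter fun j => flip x i j = true) := by
      simp [flip_same, hx]
    rw [h1, card_insert_of_notMem h2, Nat.odd_add_one, not_not]
  · have h1 : (univ.filter fun j => flip x i j = true) =
        insert i (univ.filter fun j => x j = true) := by
      ext j
      simp only [mem_filter, mem_univ, true_and, mem_insert]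
      by_cases hj : j = i
      · subst hj
        have : x j = false := by simpa using hx
        simp [flip_same, this]
      · simp [hj, flip_ne x hj]
    have h2 : i ∉ (univ.filter fun j => x j = true) := by
      simpa using hx
    rw [h1, card_insert_of_notMem h2, Nat.odd_add_one]

/-- One if the statement is true and zero otherwise. -/
noncomputable def ind (p : Prop) : ℕ := if p then 1 else 0

lemma ind_pos {p : Prop} (h : p) : ind p = 1 := if_pos h

lemma ind_neg {p : Prop} (h : ¬ p) : ind p = 0 := if_neg h

lemma ind_le {p q : Prop} (h : p → q) : ind p ≤ ind q := by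
  unfold ind
  split_ifs with h1 h2 <;> first | omega | exact absurd (h h1) h2

lemma ind_le_one (p : Prop) : ind p ≤ 1 := by
  unfold ind
  split_ifs <;> omega

lemma sum_ind {J : Type} [Fintype J] (p : J → Prop) : ∑ j, ind (p j) = (univ.filter p).card := by
  rw [card_filter]
  rfl

/-- The number of pairs `(x, i)` such that flipping the bit `i` of `x` changes the value of `f`. -/
noncomputable def sens {N : ℕ} {α : Type} (f : (Fin N → Bool) → α) : ℕ :=
  ∑ x : Fin N → Bool, ∑ i : Fin N, ind (f (flip x i) ≠ f x)

lemma sens_comp {N : ℕ} {α β : Type} (f : (Fin N → Bool) → α) (g : α → β) :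
    sens (fun x => g (f x)) ≤ sens f :=
  sum_le_sum fun _ _ => sum_le_sum fun _ _ => ind_le fun h h1 => h (congrArg g h1)

/-- The sensitivity of a tuple is at most the sum of the sensitivities of its members. -/
lemma sens_tuple {N : ℕ} {α : Type} {J : Type} [Fintype J] (f : (Fin N → Bool) → J → α) :
    sens f ≤ ∑ j, sens (fun x => f x j) := by
  unfold sens
  calc ∑ x : Fin N → Bool, ∑ i : Fin N, ind (f (flip x i) ≠ f x)
      ≤ ∑ x : Fin N → Bool, ∑ j, ∑ i : Fin N, ind (f (flip x i) j ≠ f x j) := by
        refine sum_le_sum fun x _ => ?_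
        rw [sum_comm]
        refine sum_le_sum fun i _ => ?_
        by_cases h : f (flip x i) = f x
        · rw [ind_neg (by simpa using h)]
          exact Nat.zero_le _
        · rw [ind_pos h]
          obtain ⟨j, hj⟩ : ∃ j, f (flip x i) j ≠ f x j := by
            by_contra hcon
            push Not at hcon
            exact h (funext hcon)
          calc 1 = ind (f (flip x i) j ≠ f x j) := by rw [ind_pos hj]
            _ ≤ _ := single_le_sum (f := fun j => ind (f (flip x i) j ≠ f x j))
              (fun _ _ => Nat.zero_le _) (mem_univ j)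
    _ = ∑ j, ∑ x : Fin N → Bool, ∑ i : Fin N, ind (f (flip x i) j ≠ f x j) :=
        sum_comm

/-- If an injective encoding of the values has sensitivity at most `s` in every bit then ... -/
lemma sens_encode {N b : ℕ} {α : Type} (f : (Fin N → Bool) → α) (code : α → Fin b → Bool)
    (hc : Function.Injective code) {s : ℝ}
    (h : ∀ l : Fin b, (sens (fun x => code (f x) l) : ℝ) ≤ s) : (sens f : ℝ) ≤ b * s := by
  have h1 : sens f = sens (fun x => code (f x)) := by
    unfold sens
    refine sum_congr rfl fun x _ => sum_congr rfl fun i _ => ?_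
    simp only [ne_eq, hc.eq_iff]
  have h2 := sens_tuple (fun x => code (f x))
  rw [← h1] at h2
  calc (sens f : ℝ) ≤ ((∑ l : Fin b, sens (fun x => code (f x) l) : ℕ) : ℝ) := by exact_mod_cast h2
    _ = ∑ l : Fin b, (sens (fun x => code (f x) l) : ℝ) := by push_cast; rfl
    _ ≤ ∑ _l : Fin b, s := sum_le_sum fun l _ => h l
    _ = b * s := by simp

section Gap

variable {N : ℕ} {Ω J α : Type} [Fintype Ω] [Fintype J]

/-- Both `x` and its neighbour are good for many seeds. -/
lemma both_good (good : Ω → (Fin N → Bool) → Prop) {e : ℝ}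
    (hgood : ∀ x, (1 - e) * (Fintype.card Ω : ℝ) ≤ (univ.filter fun ω => good ω x).card)
    (x x' : Fin N → Bool) :
    (1 - 2 * e) * (Fintype.card Ω : ℝ) ≤
      (univ.filter fun ω => good ω x ∧ good ω x').card := by
  have h1 := hgood x
  have h2 := hgood x'
  have h3 : (univ.filter fun ω => good ω x).card + (univ.filter fun ω => good ω x').card ≤
      (univ.filter fun ω => good ω x ∧ good ω x').card + Fintype.card Ω := by
    rw [← card_union_add_card_inter, ← filter_and, add_comm]
    exact Nat.add_le_add_left (card_le_univ _) _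
  have h4 : ((univ.filter fun ω => good ω x).card : ℝ) +
      ((univ.filter fun ω => good ω x').card : ℝ) ≤
      ((univ.filter fun ω => good ω x ∧ good ω x').card : ℝ) + (Fintype.card Ω : ℝ) := by
    exact_mod_cast h3
  linarith

/-- The average sensitivity of the entries of the output of a reduction from `f`. -/
theorem avg (f : (Fin N → Bool) → Bool) (enc : Ω → (Fin N → Bool) → J → α)
    (good : Ω → (Fin N → Bool) → Prop) {e γ : ℝ}
    (hγ : 0 ≤ γ)
    (hgood : ∀ x, (1 - e) * (Fintype.card Ω : ℝ) ≤ (univ.filter fun ω => good ω x).card)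
    (hgap : ∀ ω x x', f x = true → f x' = false → good ω x → good ω x' →
      γ * (Fintype.card J : ℝ) ≤ (univ.filter fun j => enc ω x' j ≠ enc ω x j).card) :
    (1 - 2 * e) * γ * sens f * (Fintype.card Ω * Fintype.card J : ℝ) ≤
      ∑ ω, ∑ j, (sens (fun x => enc ω x j) : ℝ) := by
  have key : ∀ (x : Fin N → Bool) (i : Fin N),
      (1 - 2 * e) * γ * (Fintype.card Ω * Fintype.card J : ℝ) * ind (f (flip x i) ≠ f x) ≤
        ∑ ω, ∑ j, (ind (enc ω (flip x i) j ≠ enc ω x j) : ℝ) := by
    intro x i
    by_cases hfx : f (flip x i) = f x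
    · rw [ind_neg (by simpa using hfx)]
      push_cast
      rw [mul_zero]
      exact sum_nonneg fun ω _ => sum_nonneg fun j _ => Nat.cast_nonneg _
    rw [ind_pos hfx, Nat.cast_one, mul_one]
    have hpt : ∀ ω, good ω x ∧ good ω (flip x i) → γ * (Fintype.card J : ℝ) ≤
        ∑ j, (ind (enc ω (flip x i) j ≠ enc ω x j) : ℝ) := by
      intro ω hω
      have hcard : ∑ j, (ind (enc ω (flip x i) j ≠ enc ω x j) : ℝ) =
          ((univ.filter fun j => enc ω (flip x i) j ≠ enc ω x j).card : ℝ) := by
        rw [← Nat.cast_sum, sum_ind]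
        congr!
      rw [hcard]
      cases hx : f x
      · have h1 : f (flip x i) = true := by
          rw [hx] at hfx
          simpa using hfx
        have h2 := hgap ω (flip x i) x h1 hx hω.2 hω.1
        refine h2.trans (le_of_eq ?_)
        congr 2
        ext j
        simp only [mem_filter, mem_univ, true_and]
        exact ne_comm
      · have h1 : f (flip x i) = false := by
          rw [hx] at hfx
          simpa using hfx
        exact hgap ω x (flip x i) hx h1 hω.1 hω.2
    calc (1 - 2 * e) * γ * (Fintype.card Ω * Fintype.card J : ℝ)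
        = ((1 - 2 * e) * (Fintype.card Ω : ℝ)) * (γ * Fintype.card J) := by ring
      _ ≤ ((univ.filter fun ω => good ω x ∧ good ω (flip x i)).card : ℝ) *
            (γ * Fintype.card J) :=
          mul_le_mul_of_nonneg_right (both_good good hgood x (flip x i)) (by positivity)
      _ = ∑ ω ∈ univ.filter (fun ω => good ω x ∧ good ω (flip x i)), γ * (Fintype.card J : ℝ) := by
          rw [sum_const, nsmul_eq_mul]
      _ ≤ ∑ ω ∈ univ.filter (fun ω => good ω x ∧ good ω (flip x i)),
            ∑ j, (ind (enc ω (flip x i) j ≠ enc ω x j) : ℝ) :=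
          sum_le_sum fun ω hω => hpt ω (by simpa using hω)
      _ ≤ _ := sum_le_sum_of_subset_of_nonneg (filter_subset _ _) fun ω _ _ =>
          sum_nonneg fun j _ => Nat.cast_nonneg _
  have h1 : ∑ ω, ∑ j, (sens (fun x => enc ω x j) : ℝ) =
      ∑ x : Fin N → Bool, ∑ i : Fin N, ∑ ω, ∑ j,
        (ind (enc ω (flip x i) j ≠ enc ω x j) : ℝ) := by
    unfold sens
    push_cast
    calc ∑ ω, ∑ j, ∑ x : Fin N → Bool, ∑ i : Fin N,
          (ind (enc ω (flip x i) j ≠ enc ω x j) : ℝ)
        = ∑ ω, ∑ x : Fin N → Bool, ∑ j, ∑ i : Fin N,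
          (ind (enc ω (flip x i) j ≠ enc ω x j) : ℝ) :=
          sum_congr rfl fun ω _ => sum_comm
      _ = ∑ x : Fin N → Bool, ∑ ω, ∑ j, ∑ i : Fin N,
          (ind (enc ω (flip x i) j ≠ enc ω x j) : ℝ) := sum_comm
      _ = ∑ x : Fin N → Bool, ∑ ω, ∑ i : Fin N, ∑ j,
          (ind (enc ω (flip x i) j ≠ enc ω x j) : ℝ) :=
          sum_congr rfl fun x _ => sum_congr rfl fun ω _ => sum_comm
      _ = _ := sum_congr rfl fun x _ => sum_comm
  rw [h1]
  calc (1 - 2 * e) * γ * sens f * (Fintype.card Ω * Fintype.card J : ℝ)
      = ∑ x : Fin N → Bool, ∑ i : Fin N,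
          (1 - 2 * e) * γ * (Fintype.card Ω * Fintype.card J : ℝ) * ind (f (flip x i) ≠ f x) := by
        simp only [← mul_sum]
        unfold sens
        push_cast
        ring
    _ ≤ _ := sum_le_sum fun x _ => sum_le_sum fun i _ => key x i

/-- The average sensitivity: the mean over all `x` of the number of the bits of `x` whose flip
changes the value. -/
noncomputable def avgSens {α : Type} (f : (Fin N → Bool) → α) : ℝ := sens f / 2 ^ N

/-- If all entries have average sensitivity at most `s` then `(1 - 2 e) γ avgSens f ≤ s`. -/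
theorem avg_le [Nonempty Ω] [Nonempty J] (f : (Fin N → Bool) → Bool)
    (enc : Ω → (Fin N → Bool) → J → α)
    (good : Ω → (Fin N → Bool) → Prop) {e γ s : ℝ} (hγ : 0 ≤ γ)
    (hgood : ∀ x, (1 - e) * (Fintype.card Ω : ℝ) ≤ (univ.filter fun ω => good ω x).card)
    (hgap : ∀ ω x x', f x = true → f x' = false → good ω x → good ω x' →
      γ * (Fintype.card J : ℝ) ≤ (univ.filter fun j => enc ω x' j ≠ enc ω x j).card)
    (hs : ∀ ω j, (sens (fun x => enc ω x j) : ℝ) ≤ s * 2 ^ N) :
    (1 - 2 * e) * γ * avgSens f ≤ s := by
  have h := avg f enc good hγ hgood hgap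
  have hΩ : (0 : ℝ) < Fintype.card Ω := by exact_mod_cast Fintype.card_pos
  have hJ : (0 : ℝ) < Fintype.card J := by exact_mod_cast Fintype.card_pos
  have h2 : ∑ ω : Ω, ∑ j : J, (sens (fun x => enc ω x j) : ℝ) ≤
      s * (2 ^ N * (Fintype.card Ω * Fintype.card J : ℝ)) := by
    calc ∑ ω : Ω, ∑ j : J, (sens (fun x => enc ω x j) : ℝ) ≤ ∑ _ω : Ω, ∑ _j : J, s * 2 ^ N :=
          sum_le_sum fun ω _ => sum_le_sum fun j _ => hs ω j
      _ = _ := by
          simp only [sum_const, card_univ, nsmul_eq_mul]
          ring
  have h3 : (0 : ℝ) < 2 ^ N * (Fintype.card Ω * Fintype.card J : ℝ) := by positivity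
  have h4 : (1 - 2 * e) * γ * avgSens f * (2 ^ N * (Fintype.card Ω * Fintype.card J : ℝ)) ≤
      s * (2 ^ N * (Fintype.card Ω * Fintype.card J : ℝ)) := by
    calc _ = (1 - 2 * e) * γ * sens f * (Fintype.card Ω * Fintype.card J : ℝ) := by
          unfold avgSens
          field_simp
      _ ≤ _ := h.trans h2
  exact le_of_mul_le_mul_right h4 h3

end Gap

/-- The parity function. -/
noncomputable def parity (N : ℕ) (x : Fin N → Bool) : Bool := decide (¬ Odd1 x)

/-- The average sensitivity of parity is `N`. -/
lemma avgSens_parity (N : ℕ) : avgSens (parity N) = N := by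
  have h : sens (parity N) = 2 ^ N * N := by
    unfold sens
    have : ∀ (x : Fin N → Bool) (i : Fin N), ind (parity N (flip x i) ≠ parity N x) = 1 := by
      intro x i
      refine ind_pos ?_
      unfold parity
      by_cases h : Odd1 x <;> simp [odd1_flip, h]
    rw [sum_congr rfl fun x _ => sum_congr rfl fun i _ => this x i]
    simp
  unfold avgSens
  rw [h]
  push_cast
  field_simp

end Pool.Agent.R562.RS
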