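import Pool.Agent.R562.RS.Core

set_option autoImplicit false

/-!
# Quantum query algorithms
-/

namespace Pool.Agent.R562.RS

open Finset
open scoped Classical ComplexConjugate

variable {N : ℕ}

/-- A quantum algorithm with `T` queries to a string of `N` bits and with outputs in `O`. `W` is the
set of the basis states; `query w` is the bit which is queried in the basis state `w` (if there is
one); `U t` is a linear isometry of the space of the states, which is applied after `t` queries; the
state `start` has norm one; and `out w` is the output if the basis state `w` is measured at the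
end. -/
structure QuantumAlgorithm (N T : ℕ) (O : Type) where
  W : Type
  fin : Fintype W
  query : W → Option (Fin N)
  U : ℕ → (W → ℂ) →ₗ[ℂ] (W → ℂ)
  isometry : ∀ t ψ, ∑ w, ‖U t ψ w‖ ^ 2 = ∑ w, ‖ψ w‖ ^ 2
  start : W → ℂ
  start_norm : ∑ w, ‖start w‖ ^ 2 = 1
  out : W → O

attribute [instance] QuantumAlgorithm.fin

/-- The sign of a bit. -/
def sgn (b : Bool) : ℂ := if b = true then -1 else 1

/-- The query: the amplitude of the basis state `w` changes its sign if the queried bit is one. -/
def oracle {W : Type} (query : W → Option (Fin N)) (x : Fin N → Bool) (ψ : W → ℂ) : W → ℂ :=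
  fun w => (query w).elim 1 (fun i => sgn (x i)) * ψ w

namespace QuantumAlgorithm

variable {T : ℕ} {O : Type}

/-- The state after `t` queries on the input `x`. -/
def state (A : QuantumAlgorithm N T O) (x : Fin N → Bool) : ℕ → A.W → ℂ
  | 0 => A.U 0 A.start
  | t + 1 => A.U (t + 1) (oracle A.query x (state A x t))

/-- The probability of the output `o` on the input `x`. -/
noncomputable def prob (A : QuantumAlgorithm N T O) (x : Fin N → Bool) (o : O) : ℝ :=
  ∑ w ∈ univ.filter (fun w => A.out w = o), ‖A.state x T w‖ ^ 2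

end QuantumAlgorithm

/-- The characters of the cube. -/
noncomputable def chi (S : Finset (Fin N)) (x : Fin N → Bool) : ℂ := ∏ i ∈ S, sgn (x i)

lemma sgn_mul_self (b : Bool) : sgn b * sgn b = 1 := by cases b <;> simp [sgn]

lemma sgn_not (b : Bool) : sgn (!b) = - sgn b := by cases b <;> simp [sgn]

lemma conj_sgn (b : Bool) : conj (sgn b) = sgn b := by cases b <;> simp [sgn]

lemma norm_sgn (b : Bool) : ‖sgn b‖ = 1 := by cases b <;> simp [sgn]

lemma chi_mul_self (S : Finset (Fin N)) (x : Fin N → Bool) : chi S x * chi S x = 1 := by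
  unfold chi
  rw [← prod_mul_distrib]
  exact prod_eq_one fun i _ => sgn_mul_self _

lemma conj_chi (S : Finset (Fin N)) (x : Fin N → Bool) : conj (chi S x) = chi S x := by
  unfold chi
  rw [map_prod]
  exact prod_congr rfl fun i _ => conj_sgn _

lemma chi_symmDiff (S : Finset (Fin N)) (i : Fin N) (x : Fin N → Bool) :
    chi (symmDiff S {i}) x = sgn (x i) * chi S x := by
  unfold chi
  by_cases h : i ∈ S
  · have h1 : symmDiff S {i} = S.erase i := by
      ext j
      simp only [mem_symmDiff, mem_singleton, mem_erase]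
      by_cases hj : j = i
      · subst hj; simp [h]
      · simp [hj]
    rw [h1, ← mul_prod_erase S (fun i => sgn (x i)) h, ← mul_assoc, sgn_mul_self, one_mul]
  · have h1 : symmDiff S {i} = insert i S := by
      ext j
      simp only [mem_symmDiff, mem_singleton, mem_insert]
      by_cases hj : j = i
      · subst hj; simp [h]
      · simp [hj]
    rw [h1, prod_insert h]

lemma chi_flip (S : Finset (Fin N)) (x : Fin N → Bool) (i : Fin N) :
    chi S (flip x i) = (if i ∈ S then -1 else 1) * chi S x := by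
  unfold chi
  by_cases h : i ∈ S
  · rw [if_pos h, ← mul_prod_erase S (fun j => sgn (flip x i j)) h,
      ← mul_prod_erase S (fun j => sgn (x j)) h, flip_same, sgn_not]
    rw [prod_congr rfl fun j hj => by rw [flip_ne x (ne_of_mem_erase hj)]]
    ring
  · rw [if_neg h, one_mul]
    refine prod_congr rfl fun j hj => ?_
    rw [flip_ne]
    rintro rfl
    exact h hj

lemma sum_flip' {M : Type} [AddCommMonoid M] (i : Fin N) (g : (Fin N → Bool) → M) :
    ∑ x : Fin N → Bool, g (flip x i) = ∑ x, g x :=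
  Fintype.sum_equiv ⟨fun x => flip x i, fun x => flip x i, fun x => flip_flip x i,
    fun x => flip_flip x i⟩ _ _ fun _ => rfl

lemma chi_orth {S T : Finset (Fin N)} (h : S ≠ T) :
    ∑ x : Fin N → Bool, chi S x * chi T x = 0 := by
  obtain ⟨i, hi⟩ : ∃ i, ¬ (i ∈ S ↔ i ∈ T) := by
    by_contra hcon
    push Not at hcon
    exact h (Finset.ext hcon)
  have h1 := sum_flip' i fun x => chi S x * chi T x
  simp only [chi_flip] at h1
  have h2 : ∀ x : Fin N → Bool, (if i ∈ S then (-1 : ℂ) else 1) * chi S x *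
      ((if i ∈ T then -1 else 1) * chi T x) = - (chi S x * chi T x) := by
    intro x
    by_cases hS : i ∈ S <;> by_cases hT : i ∈ T
    · exact absurd (by simp [hS, hT]) hi
    · simp [hS, hT]
    · simp [hS, hT]
    · exact absurd (by simp [hS, hT]) hi
  rw [sum_congr rfl fun x _ => h2 x, sum_neg_distrib] at h1
  have h3 : (2 : ℂ) * ∑ x : Fin N → Bool, chi S x * chi T x = 0 := by
    linear_combination -h1
  simpa using h3

/-- Parseval's identity. -/
lemma parseval (a : Finset (Fin N) → ℂ) :
    ∑ x : Fin N → Bool, ‖∑ S, a S * chi S x‖ ^ 2 = 2 ^ N * ∑ S, ‖a S‖ ^ 2 := by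
  have h1 : ((∑ x : Fin N → Bool, ‖∑ S, a S * chi S x‖ ^ 2 : ℝ) : ℂ) =
      ((2 ^ N * ∑ S, ‖a S‖ ^ 2 : ℝ) : ℂ) := by
    push_cast
    calc ∑ x : Fin N → Bool, ((‖∑ S, a S * chi S x‖ : ℂ)) ^ 2
        = ∑ x : Fin N → Bool, ∑ S, ∑ T, a S * conj (a T) * (chi S x * chi T x) := by
          refine sum_congr rfl fun x _ => ?_
          rw [← Complex.mul_conj', map_sum, sum_mul_sum]
          refine sum_congr rfl fun S _ => sum_congr rfl fun T _ => ?_
          rw [map_mul, conj_chi]
          ring
      _ = ∑ S, ∑ T, a S * conj (a T) * ∑ x : Fin N → Bool, chi S x * chi T x := by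
          rw [sum_comm]
          refine sum_congr rfl fun S _ => ?_
          rw [sum_comm]
          refine sum_congr rfl fun T _ => ?_
          rw [mul_sum]
      _ = ∑ S, a S * conj (a S) * 2 ^ N := by
          refine sum_congr rfl fun S _ => ?_
          rw [sum_eq_single S]
          · congr 1
            rw [sum_congr rfl fun x _ => chi_mul_self S x]
            simp
          · intro T _ hT
            rw [chi_orth (Ne.symm hT), mul_zero]
          · intro h
            exact absurd (mem_univ S) h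
      _ = _ := by
          rw [mul_sum]
          refine sum_congr rfl fun S _ => ?_
          rw [Complex.mul_conj']
          ring
  exact_mod_cast h1

/-- `f` is a polynomial of degree at most `t`. -/
def HasDeg (t : ℕ) (f : (Fin N → Bool) → ℂ) : Prop :=
  ∃ a : Finset (Fin N) → ℂ, (∀ S, t < S.card → a S = 0) ∧ ∀ x, f x = ∑ S, a S * chi S x

lemma HasDeg.mono {t t' : ℕ} (h : t ≤ t') {f : (Fin N → Bool) → ℂ} (hf : HasDeg t f) :
    HasDeg t' f := by
  obtain ⟨a, h1, h2⟩ := hf
  exact ⟨a, fun S hS => h1 S (lt_of_le_of_lt h hS), h2⟩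

lemma hasDeg_const (t : ℕ) (c : ℂ) : HasDeg (N := N) t (fun _ => c) := by
  refine ⟨fun S => if S = ∅ then c else 0, fun S hS => ?_, fun x => ?_⟩
  · have : S ≠ ∅ := by
      rintro rfl
      simp at hS
    simp [this]
  · simp [chi]

lemma HasDeg.sum {t : ℕ} {W : Type} [Fintype W] {f : W → (Fin N → Bool) → ℂ}
    (hf : ∀ w, HasDeg t (f w)) (c : W → ℂ) : HasDeg t (fun x => ∑ w, c w * f w x) := by
  choose a h1 h2 using hf
  refine ⟨fun S => ∑ w, c w * a w S, fun S hS => ?_, fun x => ?_⟩
  · exact sum_eq_zero fun w _ => by rw [h1 w S hS, mul_zero]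
  · simp only [h2, mul_sum, sum_mul]
    rw [sum_comm]
    refine sum_congr rfl fun S _ => sum_congr rfl fun w _ => ?_
    ring

lemma HasDeg.sgn_mul {t : ℕ} {f : (Fin N → Bool) → ℂ} (hf : HasDeg t f) (i : Fin N) :
    HasDeg (t + 1) (fun x => sgn (x i) * f x) := by
  obtain ⟨a, h1, h2⟩ := hf
  refine ⟨fun S => a (symmDiff S {i}), fun S hS => h1 _ ?_, fun x => ?_⟩
  · have h3 : S ⊆ insert i (symmDiff S {i}) := by
      intro j hj
      rw [mem_insert, mem_symmDiff, mem_singleton]
      by_cases h : j = i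
      · exact Or.inl h
      · exact Or.inr (Or.inl ⟨hj, h⟩)
    have h4 := (card_le_card h3).trans (card_insert_le _ _)
    omega
  · show sgn (x i) * f x = _
    rw [h2, mul_sum]
    refine Fintype.sum_equiv ⟨fun S => symmDiff S {i}, fun S => symmDiff S {i},
      fun S => symmDiff_symmDiff_cancel_right _ _, fun S => symmDiff_symmDiff_cancel_right _ _⟩
      _ _ fun S => ?_
    simp only [Equiv.coe_fn_mk, symmDiff_symmDiff_cancel_right, chi_symmDiff]
    ring

/-- The total influence of a polynomial of degree `t`. -/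
lemma HasDeg.influence {t : ℕ} {f : (Fin N → Bool) → ℂ} (hf : HasDeg t f) :
    ∑ x : Fin N → Bool, ∑ i, ‖f (flip x i) - f x‖ ^ 2 ≤
      4 * t * ∑ x : Fin N → Bool, ‖f x‖ ^ 2 := by
  obtain ⟨a, h1, h2⟩ := hf
  have h3 : ∀ i, ∑ x : Fin N → Bool, ‖f (flip x i) - f x‖ ^ 2 =
      2 ^ N * ∑ S, ‖(if i ∈ S then -2 else 0) * a S‖ ^ 2 := by
    intro i
    rw [← parseval]
    refine sum_congr rfl fun x _ => ?_
    congr 2
    rw [h2, h2, ← sum_sub_distrib]
    refine sum_congr rfl fun S _ => ?_
    rw [chi_flip]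
    split_ifs <;> ring
  rw [sum_comm, sum_congr rfl fun i _ => h3 i, ← mul_sum, sum_comm]
  have h4 : ∑ x : Fin N → Bool, ‖f x‖ ^ 2 = 2 ^ N * ∑ S, ‖a S‖ ^ 2 := by
    rw [← parseval]
    exact sum_congr rfl fun x _ => by rw [h2]
  rw [h4]
  have h5 : ∀ S : Finset (Fin N), ∑ i : Fin N, ‖(if i ∈ S then -2 else 0) * a S‖ ^ 2 ≤
      4 * t * ‖a S‖ ^ 2 := by
    intro S
    by_cases hS : t < S.card
    · rw [h1 S hS]
      simp
    · push Not at hS
      have h6 : ∀ i : Fin N, ‖(if i ∈ S then (-2 : ℂ) else 0) * a S‖ ^ 2 =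
          if i ∈ S then 4 * ‖a S‖ ^ 2 else 0 := by
        intro i
        split_ifs
        · rw [norm_mul, mul_pow]
          norm_num
        · simp
      rw [sum_congr rfl fun i _ => h6 i, sum_ite_mem, univ_inter, sum_const, nsmul_eq_mul]
      have h7 : (S.card : ℝ) ≤ t := by exact_mod_cast hS
      have h8 : 0 ≤ ‖a S‖ ^ 2 := by positivity
      nlinarith
  calc 2 ^ N * ∑ S, ∑ i : Fin N, ‖(if i ∈ S then -2 else 0) * a S‖ ^ 2
      ≤ 2 ^ N * ∑ S, 4 * t * ‖a S‖ ^ 2 :=
        mul_le_mul_of_nonneg_left (sum_le_sum fun S _ => h5 S) (by positivity)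
    _ = _ := by rw [← mul_sum]; ring

namespace QuantumAlgorithm

variable {T : ℕ} {O : Type}

lemma state_norm (A : QuantumAlgorithm N T O) (x : Fin N → Bool) (t : ℕ) :
    ∑ w, ‖A.state x t w‖ ^ 2 = 1 := by
  induction t with
  | zero => simp only [state]; rw [A.isometry, A.start_norm]
  | succ t ih =>
    simp only [state]
    rw [A.isometry, ← ih]
    refine sum_congr rfl fun w _ => ?_
    unfold oracle
    rw [norm_mul]
    cases A.query w <;> simp [norm_sgn]

lemma linear_apply {W : Type} [Fintype W] (L : (W → ℂ) →ₗ[ℂ] (W → ℂ)) (ψ : W → ℂ) (w : W) :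
    L ψ w = ∑ w', L (Pi.single w' 1) w * ψ w' := by
  conv_lhs => rw [← LinearMap.sum_single_apply (fun _ => ℂ) ψ]
  rw [map_sum, Finset.sum_apply]
  refine sum_congr rfl fun w' _ => ?_
  have h : (Pi.single w' (ψ w') : W → ℂ) = ψ w' • Pi.single w' (1 : ℂ) := by
    funext j
    by_cases hj : j = w'
    · subst hj; simp
    · simp [Pi.single_eq_of_ne hj]
  rw [h, map_smul, Pi.smul_apply, smul_eq_mul, mul_comm]

lemma state_deg (A : QuantumAlgorithm N T O) (t : ℕ) :
    ∀ w, HasDeg t (fun x => A.state x t w) := by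
  induction t with
  | zero => exact fun w => hasDeg_const 0 _
  | succ t ih =>
    intro w
    have h1 : ∀ w', HasDeg (t + 1) (fun x => oracle A.query x (A.state x t) w') := by
      intro w'
      unfold oracle
      cases h : A.query w' with
      | none =>
        simp only [Option.elim, one_mul]
        exact (ih w').mono (Nat.le_succ t)
      | some i => exact (ih w').sgn_mul i
    have h2 := HasDeg.sum h1 (fun w' => A.U (t + 1) (Pi.single w' 1) w)
    refine ⟨h2.choose, h2.choose_spec.1, fun x => ?_⟩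
    rw [← h2.choose_spec.2 x]
    simp only [state]
    exact linear_apply _ _ _

lemma dist_sq {W : Type} (s : Finset W) (u v : W → ℂ) :
    (Real.sqrt (∑ w ∈ s, ‖u w‖ ^ 2) - Real.sqrt (∑ w ∈ s, ‖v w‖ ^ 2)) ^ 2 ≤
      ∑ w ∈ s, ‖u w - v w‖ ^ 2 := by
  have h1 : ∀ w, ‖u w‖ ^ 2 + ‖v w‖ ^ 2 - 2 * (‖u w‖ * ‖v w‖) ≤ ‖u w - v w‖ ^ 2 := by
    intro w
    have h2 := abs_norm_sub_norm_le (u w) (v w)
    have h3 := sq_le_sq' (by linarith [norm_nonneg (u w - v w), abs_nonneg (‖u w‖ - ‖v w‖)]) h2
    rw [sq_abs] at h3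
    nlinarith
  have h4 : ∑ w ∈ s, ‖u w‖ * ‖v w‖ ≤
      Real.sqrt (∑ w ∈ s, ‖u w‖ ^ 2) * Real.sqrt (∑ w ∈ s, ‖v w‖ ^ 2) :=
    Real.sum_mul_le_sqrt_mul_sqrt _ _ _
  have h5 := sum_le_sum fun w (_ : w ∈ s) => h1 w
  rw [sum_sub_distrib, sum_add_distrib, ← mul_sum] at h5
  have h6 := Real.sq_sqrt (show 0 ≤ ∑ w ∈ s, ‖u w‖ ^ 2 by positivity)
  have h7 := Real.sq_sqrt (show 0 ≤ ∑ w ∈ s, ‖v w‖ ^ 2 by positivity)
  nlinarith

/-- If a quantum algorithm with `T` queries computes `f` with error probability `q` then the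
average sensitivity of `f` is at most `2 T / (1 - 2 √(q (1 - q)))`. -/
theorem sens_le (A : QuantumAlgorithm N T O) {f : (Fin N → Bool) → O} {q : ℝ} (hq0 : 0 ≤ q)
    (hq : q ≤ 1 / 2) (hA : ∀ x, 1 - q ≤ A.prob x (f x)) :
    (1 - 2 * Real.sqrt (q * (1 - q))) * sens f ≤ 2 * T * 2 ^ N := by
  have hpt : ∀ (x : Fin N → Bool) (i : Fin N),
      2 * (1 - 2 * Real.sqrt (q * (1 - q))) * ind (f (flip x i) ≠ f x) ≤
        ∑ w, ‖A.state (flip x i) T w - A.state x T w‖ ^ 2 := by
    intro x i
    by_cases h : f (flip x i) ≠ f x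
    · rw [ind_pos h]
      set y := flip x i with hy
      have hdis : Disjoint (univ.filter fun w => A.out w = f x)
          (univ.filter fun w => A.out w = f y) := by
        rw [disjoint_left]
        intro w hw hw'
        simp only [mem_filter, mem_univ, true_and] at hw hw'
        exact h (hw'.symm.trans hw)
      have hle : ∀ z, A.prob z (f x) + A.prob z (f y) ≤ 1 := by
        intro z
        unfold prob
        rw [← sum_union hdis, ← A.state_norm z T]
        exact sum_le_sum_of_subset_of_nonneg (subset_univ _) fun w _ _ => by positivity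
      have h1 := hA x
      have h2 := hA y
      have h3 := hle x
      have h4 := hle y
      have key : ∀ p p' : ℝ, 1 - q ≤ p → p' ≤ q → 0 ≤ p' →
          1 - 2 * Real.sqrt (q * (1 - q)) ≤ (Real.sqrt p - Real.sqrt p') ^ 2 := by
        intro p p' hp hp' hp0
        have e1 : Real.sqrt (1 - q) ≤ Real.sqrt p := Real.sqrt_le_sqrt hp
        have e2 : Real.sqrt p' ≤ Real.sqrt q := Real.sqrt_le_sqrt hp'
        have e3 : Real.sqrt q ≤ Real.sqrt (1 - q) := Real.sqrt_le_sqrt (by linarith)
        have e4 : Real.sqrt (q * (1 - q)) = Real.sqrt q * Real.sqrt (1 - q) :=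
          Real.sqrt_mul hq0 _
        have e5 := Real.sq_sqrt hq0
        have e6 := Real.sq_sqrt (show 0 ≤ 1 - q by linarith)
        have e7 : (Real.sqrt (1 - q) - Real.sqrt q) ^ 2 ≤ (Real.sqrt p - Real.sqrt p') ^ 2 :=
          pow_le_pow_left₀ (by linarith) (by linarith) 2
        rw [e4]
        nlinarith
      have hnn : ∀ z o, 0 ≤ A.prob z o := fun z o => sum_nonneg fun w _ => by positivity
      have h5 := key (A.prob x (f x)) (A.prob y (f x)) h1 (by linarith) (hnn _ _)
      have h6 := key (A.prob y (f y)) (A.prob x (f y)) h2 (by linarith) (hnn _ _)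
      have h7 := dist_sq (univ.filter fun w => A.out w = f x) (A.state x T) (A.state y T)
      have h8 := dist_sq (univ.filter fun w => A.out w = f y) (A.state y T) (A.state x T)
      have h9 : ∑ w ∈ univ.filter (fun w => A.out w = f x), ‖A.state x T w - A.state y T w‖ ^ 2 =
          ∑ w ∈ univ.filter (fun w => A.out w = f x), ‖A.state y T w - A.state x T w‖ ^ 2 :=
        sum_congr rfl fun w _ => by rw [norm_sub_rev]
      rw [h9] at h7
      have h10 : ∑ w ∈ univ.filter (fun w => A.out w = f x), ‖A.state y T w - A.state x T w‖ ^ 2 +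
          ∑ w ∈ univ.filter (fun w => A.out w = f y), ‖A.state y T w - A.state x T w‖ ^ 2 ≤
          ∑ w, ‖A.state y T w - A.state x T w‖ ^ 2 := by
        rw [← sum_union hdis]
        exact sum_le_sum_of_subset_of_nonneg (subset_univ _) fun w _ _ => by positivity
      have h7' : (Real.sqrt (A.prob x (f x)) - Real.sqrt (A.prob y (f x))) ^ 2 ≤
          ∑ w ∈ univ.filter (fun w => A.out w = f x), ‖A.state y T w - A.state x T w‖ ^ 2 := h7
      have h8' : (Real.sqrt (A.prob y (f y)) - Real.sqrt (A.prob x (f y))) ^ 2 ≤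
          ∑ w ∈ univ.filter (fun w => A.out w = f y), ‖A.state y T w - A.state x T w‖ ^ 2 := h8
      push_cast
      linarith
    · rw [ind_neg h]
      push_cast
      rw [mul_zero]
      exact sum_nonneg fun w _ => by positivity
  have h1 : 2 * (1 - 2 * Real.sqrt (q * (1 - q))) * sens f ≤
      ∑ w, ∑ x : Fin N → Bool, ∑ i, ‖A.state (flip x i) T w - A.state x T w‖ ^ 2 := by
    unfold sens
    push_cast
    rw [mul_sum]
    calc ∑ x : Fin N → Bool, 2 * (1 - 2 * Real.sqrt (q * (1 - q))) *
          ∑ i, (ind (f (flip x i) ≠ f x) : ℝ)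
        ≤ ∑ x : Fin N → Bool, ∑ i, ∑ w, ‖A.state (flip x i) T w - A.state x T w‖ ^ 2 := by
          refine sum_le_sum fun x _ => ?_
          rw [mul_sum]
          exact sum_le_sum fun i _ => hpt x i
      _ = ∑ x : Fin N → Bool, ∑ w, ∑ i, ‖A.state (flip x i) T w - A.state x T w‖ ^ 2 :=
          sum_congr rfl fun x _ => sum_comm
      _ = _ := sum_comm
  have h2 : ∑ w, ∑ x : Fin N → Bool, ∑ i, ‖A.state (flip x i) T w - A.state x T w‖ ^ 2 ≤
      4 * T * 2 ^ N := by
    calc ∑ w, ∑ x : Fin N → Bool, ∑ i, ‖A.state (flip x i) T w - A.state x T w‖ ^ 2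
        ≤ ∑ w, 4 * T * ∑ x : Fin N → Bool, ‖A.state x T w‖ ^ 2 :=
          sum_le_sum fun w _ => (A.state_deg T w).influence
      _ = 4 * T * ∑ x : Fin N → Bool, ∑ w, ‖A.state x T w‖ ^ 2 := by
          rw [← mul_sum, sum_comm]
      _ = _ := by
          rw [sum_congr rfl fun x _ => A.state_norm x T]
          simp
  nlinarith

end QuantumAlgorithm

end Pool.Agent.R562.RS
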