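import Pool.Agent.R562.RS.Core

set_option autoImplicit false

/-!
# Weighted average sensitivity of the entries
-/

namespace Pool.Agent.R562.RS

open Finset
open scoped Classical

variable {N : ℕ} {Ω J α : Type} [Fintype Ω] [Fintype J]

/-- The average sensitivity of the entries of the output of a reduction from `f`, with weights. -/
theorem avg_w (w : J → ℝ) (hw : ∀ j, 0 ≤ w j) (f : (Fin N → Bool) → Bool)
    (enc : Ω → (Fin N → Bool) → J → α) (good : Ω → (Fin N → Bool) → Prop) {e γ : ℝ}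
    (hγ : 0 ≤ γ)
    (hgood : ∀ x, (1 - e) * (Fintype.card Ω : ℝ) ≤ (univ.filter fun ω => good ω x).card)
    (hgap : ∀ ω x x', f x = true → f x' = false → good ω x → good ω x' →
      γ ≤ ∑ j, w j * ind (enc ω x' j ≠ enc ω x j)) :
    (1 - 2 * e) * γ * sens f * Fintype.card Ω ≤
      ∑ ω, ∑ j, w j * (sens (fun x => enc ω x j) : ℝ) := by
  have key : ∀ (x : Fin N → Bool) (i : Fin N),
      (1 - 2 * e) * γ * Fintype.card Ω * ind (f (flip x i) ≠ f x) ≤
        ∑ ω, ∑ j, w j * (ind (enc ω (flip x i) j ≠ enc ω x j) : ℝ) := by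
    intro x i
    by_cases hfx : f (flip x i) = f x
    · rw [ind_neg (by simpa using hfx)]
      push_cast
      rw [mul_zero]
      exact sum_nonneg fun ω _ => sum_nonneg fun j _ => mul_nonneg (hw j) (Nat.cast_nonneg _)
    rw [ind_pos hfx, Nat.cast_one, mul_one]
    have hpt : ∀ ω, good ω x ∧ good ω (flip x i) → γ ≤
        ∑ j, w j * (ind (enc ω (flip x i) j ≠ enc ω x j) : ℝ) := by
      intro ω hω
      cases hx : f x
      · have h1 : f (flip x i) = true := by
          rw [hx] at hfx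
          simpa using hfx
        have h2 := hgap ω (flip x i) x h1 hx hω.2 hω.1
        refine h2.trans (le_of_eq ?_)
        refine sum_congr rfl fun j _ => ?_
        congr 2
        exact congrArg ind (propext ne_comm)
      · have h1 : f (flip x i) = false := by
          rw [hx] at hfx
          simpa using hfx
        exact hgap ω x (flip x i) hx h1 hω.1 hω.2
    calc (1 - 2 * e) * γ * Fintype.card Ω
        = ((1 - 2 * e) * (Fintype.card Ω : ℝ)) * γ := by ring
      _ ≤ ((univ.filter fun ω => good ω x ∧ good ω (flip x i)).card : ℝ) * γ :=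
          mul_le_mul_of_nonneg_right (both_good good hgood x (flip x i)) hγ
      _ = ∑ ω ∈ univ.filter (fun ω => good ω x ∧ good ω (flip x i)), γ := by
          rw [sum_const, nsmul_eq_mul]
      _ ≤ ∑ ω ∈ univ.filter (fun ω => good ω x ∧ good ω (flip x i)),
            ∑ j, w j * (ind (enc ω (flip x i) j ≠ enc ω x j) : ℝ) :=
          sum_le_sum fun ω hω => hpt ω (by simpa using hω)
      _ ≤ _ := sum_le_sum_of_subset_of_nonneg (filter_subset _ _) fun ω _ _ =>
          sum_nonneg fun j _ => mul_nonneg (hw j) (Nat.cast_nonneg _)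
  have h1 : ∑ ω, ∑ j, w j * (sens (fun x => enc ω x j) : ℝ) =
      ∑ x : Fin N → Bool, ∑ i : Fin N, ∑ ω, ∑ j,
        w j * (ind (enc ω (flip x i) j ≠ enc ω x j) : ℝ) := by
    unfold sens
    push_cast
    simp only [mul_sum]
    calc ∑ ω, ∑ j, ∑ x : Fin N → Bool, ∑ i : Fin N,
          w j * (ind (enc ω (flip x i) j ≠ enc ω x j) : ℝ)
        = ∑ ω, ∑ x : Fin N → Bool, ∑ j, ∑ i : Fin N,
          w j * (ind (enc ω (flip x i) j ≠ enc ω x j) : ℝ) :=
          sum_congr rfl fun ω _ => sum_comm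
      _ = ∑ x : Fin N → Bool, ∑ ω, ∑ j, ∑ i : Fin N,
          w j * (ind (enc ω (flip x i) j ≠ enc ω x j) : ℝ) := sum_comm
      _ = ∑ x : Fin N → Bool, ∑ ω, ∑ i : Fin N, ∑ j,
          w j * (ind (enc ω (flip x i) j ≠ enc ω x j) : ℝ) :=
          sum_congr rfl fun x _ => sum_congr rfl fun ω _ => sum_comm
      _ = _ := sum_congr rfl fun x _ => sum_comm
  rw [h1]
  calc (1 - 2 * e) * γ * sens f * Fintype.card Ω
      = ∑ x : Fin N → Bool, ∑ i : Fin N,
          (1 - 2 * e) * γ * Fintype.card Ω * ind (f (flip x i) ≠ f x) := by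
        simp only [← mul_sum]
        unfold sens
        push_cast
        ring
    _ ≤ _ := sum_le_sum fun x _ => sum_le_sum fun i _ => key x i

/-- If all entries have average sensitivity at most `r` then `(1 - 2 e) γ avgSens f ≤ r W`, where
`W` is the sum of the weights. -/
theorem avg_w_le [Nonempty Ω] (w : J → ℝ) (hw : ∀ j, 0 ≤ w j) (f : (Fin N → Bool) → Bool)
    (enc : Ω → (Fin N → Bool) → J → α)
    (good : Ω → (Fin N → Bool) → Prop) {e γ r : ℝ} (hγ : 0 ≤ γ)
    (hgood : ∀ x, (1 - e) * (Fintype.card Ω : ℝ) ≤ (univ.filter fun ω => good ω x).card)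
    (hgap : ∀ ω x x', f x = true → f x' = false → good ω x → good ω x' →
      γ ≤ ∑ j, w j * ind (enc ω x' j ≠ enc ω x j))
    (hs : ∀ ω j, (sens (fun x => enc ω x j) : ℝ) ≤ r * 2 ^ N) :
    (1 - 2 * e) * γ * avgSens f ≤ r * ∑ j, w j := by
  have h := avg_w w hw f enc good hγ hgood hgap
  have hΩ : (0 : ℝ) < Fintype.card Ω := by exact_mod_cast Fintype.card_pos
  have h2 : ∑ ω : Ω, ∑ j : J, w j * (sens (fun x => enc ω x j) : ℝ) ≤
      (r * ∑ j, w j) * (2 ^ N * Fintype.card Ω) := by
    calc ∑ ω : Ω, ∑ j : J, w j * (sens (fun x => enc ω x j) : ℝ)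
        ≤ ∑ _ω : Ω, ∑ j : J, w j * (r * 2 ^ N) :=
          sum_le_sum fun ω _ => sum_le_sum fun j _ => mul_le_mul_of_nonneg_left (hs ω j) (hw j)
      _ = _ := by
          rw [sum_const, card_univ, nsmul_eq_mul, ← sum_mul]
          ring
  have h3 : (0 : ℝ) < 2 ^ N * Fintype.card Ω := by positivity
  have h4 : (1 - 2 * e) * γ * avgSens f * (2 ^ N * Fintype.card Ω) ≤
      (r * ∑ j, w j) * (2 ^ N * Fintype.card Ω) := by
    calc _ = (1 - 2 * e) * γ * sens f * Fintype.card Ω := by
          unfold avgSens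
          field_simp
      _ ≤ _ := h.trans h2
  exact le_of_mul_le_mul_right h4 h3

end Pool.Agent.R562.RS
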