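import Pool.Agent.R562.RS.Khr
import Pool.Agent.R562.RS.Quant
import Pool.Agent.R562.RS.WAvg

set_option autoImplicit false

/-!
# Reductions to weighted vertex cover
-/

namespace Pool.Agent.R562.RS

open Finset
open scoped Classical

section Defs

variable {V : Type} [Fintype V]

/-- `C` is a vertex cover of `G`. -/
def IsCover (G : SimpleGraph V) (C : Finset V) : Prop := ∀ u v, G.Adj u v → u ∈ C ∨ v ∈ C

/-- The graph `G`, with the vertex weights `w`, and the bound `s` are a correct output for an input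
with the answer `a`: there is a vertex cover of weight at most `s` if `a` is true, and all vertex
covers have weight at least `c s` if `a` is false. -/
def CoverCorrect (w : V → ℝ) (c : ℝ) (a : Bool) (G : SimpleGraph V) (s : ℝ) : Prop :=
  (a = true → ∃ C : Finset V, IsCover G C ∧ ∑ v ∈ C, w v ≤ s) ∧
    (a = false → ∀ C : Finset V, IsCover G C → c * s ≤ ∑ v ∈ C, w v)

/-- The graphs `G ω x` and the bounds `s ω x`, where `ω` is a random seed, are computed by a
randomized reduction from `f` to the problem to approximate the weight of the minimum vertex cover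
within a factor `c`, with error probability `e`. -/
def CoverReduction {N : ℕ} {Ω : Type} [Fintype Ω] (w : V → ℝ) (c e : ℝ)
    (f : (Fin N → Bool) → Bool) (G : Ω → (Fin N → Bool) → SimpleGraph V)
    (s : Ω → (Fin N → Bool) → ℝ) : Prop :=
  ∀ x, (1 - e) * (Fintype.card Ω : ℝ) ≤
    (univ.filter fun ω => CoverCorrect w c (f x) (G ω x) (s ω x)).card

/-- The neighbourhoods of vertices of weight at least `(c - 1) s` are different, or the bounds are
different. -/
theorem cover_gap {w : V → ℝ} (hw : ∀ v, 0 ≤ w v) {c s s' σ : ℝ} (hc : 1 ≤ c)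
    (hσ : σ ≤ s) (hσ' : σ ≤ s')
    {G G' : SimpleGraph V} (h : ∃ C : Finset V, IsCover G C ∧ ∑ v ∈ C, w v ≤ s)
    (h' : ∀ C : Finset V, IsCover G' C → c * s' ≤ ∑ v ∈ C, w v) (hσ0 : 0 ≤ σ) :
    (c - 1) * σ ≤ ∑ v, w v * ind ((G'.neighborSet v, s') ≠ (G.neighborSet v, s)) := by
  by_cases hss : s' = s
  · subst hss
    obtain ⟨C, hC, hs⟩ := h
    have h1 : IsCover G' (C ∪ univ.filter fun v => G'.neighborSet v ≠ G.neighborSet v) := by
      intro u v huv
      by_cases hu : G'.neighborSet u = G.neighborSet u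
      · have h2 : v ∈ G.neighborSet u := by
          rw [← hu]
          exact huv
        rcases hC u v h2 with h3 | h3
        · exact Or.inl (mem_union_left _ h3)
        · exact Or.inr (mem_union_left _ h3)
      · exact Or.inl (mem_union_right _ (by simpa using hu))
    have h2 := h' _ h1
    have h3 : ∑ v ∈ C ∪ univ.filter (fun v => G'.neighborSet v ≠ G.neighborSet v), w v ≤
        ∑ v ∈ C, w v + ∑ v ∈ univ.filter (fun v => G'.neighborSet v ≠ G.neighborSet v), w v := by
      rw [← sum_union_inter]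
      have : 0 ≤ ∑ v ∈ C ∩ univ.filter (fun v => G'.neighborSet v ≠ G.neighborSet v), w v :=
        sum_nonneg fun v _ => hw v
      linarith
    have h4 : ∑ v ∈ univ.filter (fun v => G'.neighborSet v ≠ G.neighborSet v), w v =
        ∑ v, w v * ind ((G'.neighborSet v, s') ≠ (G.neighborSet v, s')) := by
      rw [sum_filter]
      refine sum_congr rfl fun v _ => ?_
      by_cases hv : G'.neighborSet v = G.neighborSet v
      · rw [ind_neg (by simp [hv])]
        simp [hv]
      · rw [ind_pos (by simpa using hv)]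
        simp [hv]
    rw [← h4]
    nlinarith
  · have h1 : ∑ v, w v * ind ((G'.neighborSet v, s') ≠ (G.neighborSet v, s)) = ∑ v, w v := by
      refine sum_congr rfl fun v _ => ?_
      rw [ind_pos (by
        intro hcon
        exact hss (Prod.mk.inj hcon).2)]
      simp
    rw [h1]
    have h2 := h' univ fun u v _ => Or.inl (mem_univ u)
    nlinarith

variable {N : ℕ} {Ω : Type} [Fintype Ω] [Nonempty Ω]

theorem cover_avg {w : V → ℝ} (hw : ∀ v, 0 ≤ w v) {f : (Fin N → Bool) → Bool}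
    {G : Ω → (Fin N → Bool) → SimpleGraph V} {s : Ω → (Fin N → Bool) → ℝ}
    {c σ e r : ℝ} (hc : 1 ≤ c) (hσ0 : 0 ≤ σ) (hσ : ∀ ω x, σ ≤ s ω x)
    (hr : CoverReduction w c e f G s)
    (hs : ∀ ω v, (sens (fun x => ((G ω x).neighborSet v, s ω x)) : ℝ) ≤ r * 2 ^ N) :
    (1 - 2 * e) * ((c - 1) * σ) * avgSens f ≤ r * ∑ v, w v := by
  refine avg_w_le w hw f (fun ω x v => ((G ω x).neighborSet v, s ω x))
    (fun ω x => CoverCorrect w c (f x) (G ω x) (s ω x)) ?_ hr ?_ hs
  · have : 0 ≤ c - 1 := by linarith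
    positivity
  · intro ω x x' h1 h2 h3 h4
    exact cover_gap hw hc (hσ ω x) (hσ ω x') (h3.1 h1) (h4.2 h2) hσ0

lemma sens_pair {α β : Type} (f : (Fin N → Bool) → α) (g : (Fin N → Bool) → β) :
    sens (fun x => (f x, g x)) ≤ sens f + sens g := by
  unfold sens
  rw [← sum_add_distrib]
  refine sum_le_sum fun x _ => ?_
  rw [← sum_add_distrib]
  refine sum_le_sum fun i _ => ?_
  have key : ∀ (a a' : α) (b b' : β), ind ((a, b) ≠ (a', b')) ≤ ind (a ≠ a') + ind (b ≠ b') := by
    intro a a' b b'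
    by_cases h4 : a = a'
    · by_cases h5 : b = b'
      · rw [ind_neg (by rw [h4, h5]; simp)]
        exact Nat.zero_le _
      · rw [ind_pos (p := b ≠ b') h5]
        have := ind_le_one ((a, b) ≠ (a', b'))
        omega
    · rw [ind_pos (p := a ≠ a') h4]
      have := ind_le_one ((a, b) ≠ (a', b'))
      omega
  exact key _ _ _ _

/-- Quantum queries. -/
theorem cover_quantum {w : V → ℝ} (hw : ∀ v, 0 ≤ w v) {f : (Fin N → Bool) → Bool}
    {G : Ω → (Fin N → Bool) → SimpleGraph V} {s : Ω → (Fin N → Bool) → ℝ}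
    {T : ℕ} {c σ e q : ℝ} (hc : 1 ≤ c) (hσ0 : 0 ≤ σ) (hσ : ∀ ω x, σ ≤ s ω x) (hq0 : 0 ≤ q)
    (hq : q ≤ 1 / 2) (hr : CoverReduction w c e f G s)
    (hA : ∀ ω v, ∃ Q : QuantumAlgorithm N T (Set V × ℝ), ∀ x,
      1 - q ≤ Q.prob x ((G ω x).neighborSet v, s ω x)) :
    (1 - 2 * Real.sqrt (q * (1 - q))) * ((1 - 2 * e) * ((c - 1) * σ) * avgSens f) ≤
      2 * T * ∑ v, w v := by
  have hW : 0 ≤ ∑ v, w v := sum_nonneg fun v _ => hw v
  have hκ : 0 ≤ 1 - 2 * Real.sqrt (q * (1 - q)) := by
    have h1 : Real.sqrt (q * (1 - q)) ≤ Real.sqrt ((1 / 2) ^ 2) :=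
      Real.sqrt_le_sqrt (by nlinarith [sq_nonneg (q - 1 / 2)])
    rw [Real.sqrt_sq (by norm_num)] at h1
    linarith
  rcases hκ.eq_or_lt with h0 | h0
  · rw [← h0, zero_mul]
    positivity
  · have h1 := cover_avg (r := 2 * T / (1 - 2 * Real.sqrt (q * (1 - q)))) hw hc hσ0 hσ hr (by
      intro ω v
      obtain ⟨Q, hQ⟩ := hA ω v
      have h2 := Q.sens_le hq0 hq hQ
      rw [div_mul_eq_mul_div, le_div_iff₀ h0, mul_comm]
      exact h2)
    rw [div_mul_eq_mul_div, le_div_iff₀ h0] at h1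
    linarith

/-- `nb` consists of adjacency lists of length `D` of the graph `G`: the neighbours of `v` are the
members of its list which are different from `v` (so `v` itself marks empty places). -/
def ListsOf {D : ℕ} (nb : V → Fin D → V) (G : SimpleGraph V) : Prop :=
  ∀ v w, G.Adj v w ↔ w ≠ v ∧ ∃ j, nb v j = w

/-- Formulas, for graphs of bounded degree. -/
theorem cover_formula {D b b' L : ℕ} {w : V → ℝ} (hw : ∀ v, 0 ≤ w v)
    {f : (Fin N → Bool) → Bool}
    {G : Ω → (Fin N → Bool) → SimpleGraph V} {s : Ω → (Fin N → Bool) → ℝ}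
    {nb : Ω → (Fin N → Bool) → V → Fin D → V}
    {c σ e : ℝ} (hc : 1 ≤ c) (hσ0 : 0 ≤ σ) (hσ : ∀ ω x, σ ≤ s ω x) (code : V → Fin b → Bool)
    (hcode : Function.Injective code) (bound : (Fin b' → Bool) → ℝ)
    (hr : CoverReduction w c e f G s)
    (hnb : ∀ ω x, ListsOf (nb ω x) (G ω x))
    (hF : ∀ ω v j l, ∃ F : Formula N, F.size ≤ L ∧ ∀ x, F.eval x = code (nb ω x v j) l)
    (hs : ∀ ω, ∃ F : Fin b' → Formula N, (∀ l, (F l).size ≤ L) ∧
      ∀ x, s ω x = bound fun l => (F l).eval x) :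
    (1 - 2 * e) * ((c - 1) * σ) * avgSens f ≤ ((D * b + b' : ℕ) : ℝ) * Real.sqrt L *
      ∑ v, w v := by
  refine cover_avg hw hc hσ0 hσ hr fun ω v => ?_
  obtain ⟨F', hF'L, hF'⟩ := hs ω
  have hL : ∀ F : Formula N, F.size ≤ L → (sens F.eval : ℝ) ≤ Real.sqrt L * 2 ^ N := by
    intro F hF
    refine (sens_formula F).trans ?_
    have h2 : Real.sqrt F.size ≤ Real.sqrt L := Real.sqrt_le_sqrt (by exact_mod_cast hF)
    exact mul_le_mul_of_nonneg_right h2 (by positivity)
  have h1 : (fun x => ((G ω x).neighborSet v, s ω x)) = fun x =>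
      (fun t : (Fin D → V) × (Fin b' → Bool) =>
        (({w | w ≠ v ∧ ∃ j, t.1 j = w} : Set V), bound t.2)) (nb ω x v, fun l => (F' l).eval x) := by
    funext x
    refine Prod.ext ?_ (hF' x)
    ext w
    exact hnb ω x v w
  have h2 : sens (fun x => ((G ω x).neighborSet v, s ω x)) ≤
      sens fun x => (nb ω x v, fun l => (F' l).eval x) := by
    rw [h1]
    exact sens_comp (fun x => (nb ω x v, fun l => (F' l).eval x))
      (fun t : (Fin D → V) × (Fin b' → Bool) =>
        (({w | w ≠ v ∧ ∃ j, t.1 j = w} : Set V), bound t.2))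
  have h3 : sens (fun x => (nb ω x v, fun l => (F' l).eval x)) ≤
      sens (fun x => nb ω x v) + sens (fun (x : Fin N → Bool) l => (F' l).eval x) :=
    sens_pair (fun x => nb ω x v) (fun (x : Fin N → Bool) l => (F' l).eval x)
  have h4 := sens_tuple fun x => nb ω x v
  have h5 := sens_tuple fun (x : Fin N → Bool) l => (F' l).eval x
  have h6 : ∀ j, (sens (fun x => nb ω x v j) : ℝ) ≤ b * (Real.sqrt L * 2 ^ N) := by
    intro j
    refine sens_encode _ code hcode fun l => ?_
    obtain ⟨F, hFL, hF⟩ := hF ω v j l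
    have h1 : (fun x => code (nb ω x v j) l) = F.eval := funext fun x => (hF x).symm
    rw [h1]
    exact hL F hFL
  have h7 : (sens (fun x => nb ω x v) : ℝ) ≤ D * (b * (Real.sqrt L * 2 ^ N)) := by
    calc (sens (fun x => nb ω x v) : ℝ) ≤ ((∑ j, sens (fun x => nb ω x v j) : ℕ) : ℝ) := by
          exact_mod_cast h4
      _ = ∑ j, (sens (fun x => nb ω x v j) : ℝ) := by push_cast; rfl
      _ ≤ ∑ _j : Fin D, b * (Real.sqrt L * 2 ^ N) := sum_le_sum fun j _ => h6 j
      _ = _ := by rw [sum_const, card_univ, Fintype.card_fin, nsmul_eq_mul]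
  have h8 : (sens (fun (x : Fin N → Bool) l => (F' l).eval x) : ℝ) ≤
      b' * (Real.sqrt L * 2 ^ N) := by
    calc (sens (fun (x : Fin N → Bool) l => (F' l).eval x) : ℝ)
        ≤ ((∑ l, sens (fun x => (F' l).eval x) : ℕ) : ℝ) := by exact_mod_cast h5
      _ = ∑ l, (sens (F' l).eval : ℝ) := by push_cast; rfl
      _ ≤ ∑ _l : Fin b', Real.sqrt L * 2 ^ N := sum_le_sum fun l _ => hL _ (hF'L l)
      _ = _ := by rw [sum_const, card_univ, Fintype.card_fin, nsmul_eq_mul]
  calc (sens (fun x => ((G ω x).neighborSet v, s ω x)) : ℝ)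
      ≤ ((sens (fun x => nb ω x v) + sens (fun (x : Fin N → Bool) l => (F' l).eval x) : ℕ) : ℝ) := by
        exact_mod_cast h2.trans h3
    _ = (sens (fun x => nb ω x v) : ℝ) + (sens (fun (x : Fin N → Bool) l => (F' l).eval x) : ℝ) := by
        push_cast; rfl
    _ ≤ D * (b * (Real.sqrt L * 2 ^ N)) + b' * (Real.sqrt L * 2 ^ N) := add_le_add h7 h8
    _ = _ := by push_cast; ring

end Defs

end Pool.Agent.R562.RS
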