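import Pool.Agent.R562.RS.Core

set_option autoImplicit false

/-!
# Circuits with few NOT gates
-/

namespace Pool.Agent.R562.RS

open Finset
open scoped Classical

variable {N : ℕ}

/-- A circuit with `t` NOT gates and with the outputs `o : O`; there is no bound on the number of
its other gates, which compute arbitrary nondecreasing functions. So the input of the NOT gate `j`
is a nondecreasing function `M j` of the variables and of the values of the earlier NOT gates, the
value of this gate on the input `x` is `neg x j`, and the output `o` is a nondecreasing function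
`F o` of the variables and of the values of all NOT gates. -/
structure NotCircuit (N t : ℕ) (O : Type) where
  M : Fin t → (Fin N → Bool) → (Fin t → Bool) → Bool
  F : O → (Fin N → Bool) → (Fin t → Bool) → Bool
  neg : (Fin N → Bool) → Fin t → Bool
  mono_M : ∀ j x x' y y', (∀ i, x i ≤ x' i) → (∀ l < j, y l ≤ y' l) → M j x y ≤ M j x' y'
  mono_F : ∀ o x x' y y', (∀ i, x i ≤ x' i) → (∀ l, y l ≤ y' l) → F o x y ≤ F o x' y'
  spec : ∀ x j, neg x j = !(M j x (neg x))

namespace NotCircuit

variable {t : ℕ} {O : Type}

/-- The value of the output `o`. -/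
def out (C : NotCircuit N t O) (x : Fin N → Bool) (o : O) : Bool := C.F o x (C.neg x)

/-- The vector of the values of the NOT gates is nonincreasing in the lexicographic order. -/
lemma neg_anti (C : NotCircuit N t O) {x x' : Fin N → Bool} (h : ∀ i, x i ≤ x' i) :
    toLex (C.neg x') ≤ toLex (C.neg x) := by
  by_cases he : C.neg x' = C.neg x
  · rw [he]
  · obtain ⟨j, hj, hmin⟩ : ∃ j, C.neg x' j ≠ C.neg x j ∧ ∀ l < j, C.neg x' l = C.neg x l := by
      obtain ⟨j0, hj0⟩ : ∃ j, C.neg x' j ≠ C.neg x j := by
        by_contra hcon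
        push Not at hcon
        exact he (funext hcon)
      have hne : (univ.filter fun j => C.neg x' j ≠ C.neg x j).Nonempty :=
        ⟨j0, by simpa using hj0⟩
      refine ⟨(univ.filter fun j => C.neg x' j ≠ C.neg x j).min' hne, ?_, fun l hl => ?_⟩
      · have := min'_mem _ hne
        simpa using this
      · by_contra hcon
        exact absurd (min'_le _ l (by simpa using hcon)) (not_le.2 hl)
    refine le_of_lt ⟨j, fun l hl => hmin l hl, ?_⟩
    have h1 := C.mono_M j x x' (C.neg x) (C.neg x') h (fun l hl => (hmin l hl).ge)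
    have h2 := C.spec x j
    have h3 := C.spec x' j
    show C.neg x' j < C.neg x j
    rw [h2, h3] at hj ⊢
    revert h1 hj
    cases C.M j x (C.neg x) <;> cases C.M j x' (C.neg x') <;> simp

end NotCircuit

/-- A nonincreasing sequence in a finite linear order. -/
lemma changes {L : Type} [LinearOrder L] [Fintype L] (g : ℕ → L) (hg : ∀ s, g (s + 1) ≤ g s)
    (n : ℕ) : ((range n).filter fun s => g (s + 1) ≠ g s).card + 1 ≤ Fintype.card L := by
  have hanti : Antitone g := antitone_nat_of_succ_le hg
  have h1 : ((range n).filter fun s => g (s + 1) ≠ g s).card ≤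
      ((univ : Finset L).erase (g 0)).card := by
    refine card_le_card_of_injOn (fun s => g (s + 1)) ?_ ?_
    · intro s hs
      simp only [coe_filter, Set.mem_setOf_eq, mem_range] at hs
      simp only [coe_erase, coe_univ, Set.mem_diff, Set.mem_univ, Set.mem_singleton_iff, true_and]
      exact (lt_of_lt_of_le (lt_of_le_of_ne (hg s) hs.2) (hanti (Nat.zero_le s))).ne
    · have key : ∀ s s', s < s' → g (s' + 1) ≠ g s' → g (s' + 1) ≠ g (s + 1) := by
        intro s s' hss hs'
        exact (lt_of_lt_of_le (lt_of_le_of_ne (hg s') hs') (hanti hss)).ne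
      intro s hs s' hs' he
      simp only [coe_filter, Set.mem_setOf_eq, mem_range] at hs hs'
      rcases lt_trichotomy s s' with h | h | h
      · exact absurd he.symm (key s s' h hs'.2)
      · exact h
      · exact absurd he (key s' s h hs.2)
  rw [card_erase_of_mem (mem_univ _), card_univ] at h1
  have h2 : 0 < Fintype.card L := Fintype.card_pos_iff.2 ⟨g 0⟩
  omega

namespace NotCircuit

variable {t : ℕ} {O : Type}

/-- The circuit with one more NOT gate, at the output `o`. -/
def snoc (C : NotCircuit N t O) (o : O) : NotCircuit N (t + 1) Empty where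
  M := fun j x y => Fin.lastCases (motive := fun _ => Bool) (C.F o x fun l => y l.castSucc)
    (fun j => C.M j x fun l => y l.castSucc) j
  F := fun o => o.elim
  neg := fun x j => Fin.lastCases (motive := fun _ => Bool) (!(C.out x o)) (fun j => C.neg x j) j
  mono_M := by
    intro j x x' y y' hx hy
    induction j using Fin.lastCases with
    | last =>
      simp only [Fin.lastCases_last]
      exact C.mono_F o x x' _ _ hx fun l => hy _ (Fin.castSucc_lt_last l)
    | cast j =>
      simp only [Fin.lastCases_castSucc]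
      exact C.mono_M j x x' _ _ hx fun l hl => hy _ (Fin.castSucc_lt_castSucc_iff.2 hl)
  mono_F := fun o => o.elim
  spec := by
    intro x j
    induction j using Fin.lastCases with
    | last =>
      simp only [Fin.lastCases_last, Fin.lastCases_castSucc]
      rfl
    | cast j =>
      simp only [Fin.lastCases_castSucc]
      exact C.spec x j

/-- Every output changes at most `2 ^ (t + 1) - 1` times on a chain. -/
theorem changes_out (C : NotCircuit N t O) (o : O) (c : ℕ → Fin N → Bool)
    (hc : ∀ s i, c s i ≤ c (s + 1) i) (n : ℕ) :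
    ((range n).filter fun s => C.out (c (s + 1)) o ≠ C.out (c s) o).card + 1 ≤
      2 ^ (t + 1) := by
  have h1 := changes (fun s => toLex ((C.snoc o).neg (c s)))
    (fun s => (C.snoc o).neg_anti (hc s)) n
  have h2 : Fintype.card (Lex (Fin (t + 1) → Bool)) = 2 ^ (t + 1) := by
    change Fintype.card (Fin (t + 1) → Bool) = _
    simp
  have h3 : ((range n).filter fun s => C.out (c (s + 1)) o ≠ C.out (c s) o) ⊆
      (range n).filter fun s => toLex ((C.snoc o).neg (c (s + 1))) ≠
        toLex ((C.snoc o).neg (c s)) := by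
    intro s hs
    simp only [mem_filter] at hs ⊢
    refine ⟨hs.1, fun h => hs.2 ?_⟩
    have h4 : (C.snoc o).neg (c (s + 1)) (Fin.last t) =
        (C.snoc o).neg (c s) (Fin.last t) := congrFun (toLex.injective h) _
    simp only [snoc, Fin.lastCases_last] at h4
    simpa using h4
  have h4 := card_le_card h3
  have h5 : ((range n).filter fun s => toLex ((C.snoc o).neg (c (s + 1))) ≠
      toLex ((C.snoc o).neg (c s))).card + 1 ≤ 2 ^ (t + 1) := by
    rw [← h2]
    convert h1
  omega

end NotCircuit

/-- The number of NOT gates which are needed by a reduction from `f`. The entries of the output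
are encoded by `b` bits each. The value of `f` alternates `n` times on the chain `c`. -/
theorem not_gates {Ω J α : Type} [Fintype Ω] [Nonempty Ω] [Fintype J] [Nonempty J] {t b : ℕ}
    (f : (Fin N → Bool) → Bool) (c : ℕ → Fin N → Bool) (hc : ∀ s i, c s i ≤ c (s + 1) i) (n : ℕ)
    (hf : ∀ s < n, f (c (s + 1)) ≠ f (c s))
    (enc : Ω → (Fin N → Bool) → J → α) (code : α → Fin b → Bool) (hcode : Function.Injective code)
    (C : Ω → NotCircuit N t (J × Fin b))
    (hC : ∀ ω x j l, (C ω).out x (j, l) = code (enc ω x j) l)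
    (good : Ω → (Fin N → Bool) → Prop) {e γ : ℝ} (hγ : 0 ≤ γ)
    (hgood : ∀ x, (1 - e) * (Fintype.card Ω : ℝ) ≤ (univ.filter fun ω => good ω x).card)
    (hgap : ∀ ω x x', f x = true → f x' = false → good ω x → good ω x' →
      γ * (Fintype.card J : ℝ) ≤ (univ.filter fun j => enc ω x' j ≠ enc ω x j).card) :
    (1 - 2 * e) * γ * n ≤ b * (2 ^ (t + 1) - 1) := by
  have hΩ : (0 : ℝ) < Fintype.card Ω := by exact_mod_cast Fintype.card_pos
  have hJ : (0 : ℝ) < Fintype.card J := by exact_mod_cast Fintype.card_pos
  have h1 : ∀ ω j l, ∑ s ∈ range n,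
      (ind (code (enc ω (c (s + 1)) j) l ≠ code (enc ω (c s) j) l) : ℝ) ≤
        2 ^ (t + 1) - 1 := by
    intro ω j l
    have h2 := (C ω).changes_out (j, l) c hc n
    simp only [hC] at h2
    have h3 : ∑ s ∈ range n,
        (ind (code (enc ω (c (s + 1)) j) l ≠ code (enc ω (c s) j) l) : ℝ) =
        (((range n).filter fun s =>
          code (enc ω (c (s + 1)) j) l ≠ code (enc ω (c s) j) l).card : ℝ) := by
      rw [card_filter]
      push_cast
      refine sum_congr rfl fun s _ => ?_
      unfold ind
      split_ifs <;> simp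
    rw [h3, le_sub_iff_add_le]
    exact_mod_cast h2
  have h2 : ∀ ω j, ∑ s ∈ range n,
      (ind (enc ω (c (s + 1)) j ≠ enc ω (c s) j) : ℝ) ≤ b * (2 ^ (t + 1) - 1) := by
    intro ω j
    calc ∑ s ∈ range n, (ind (enc ω (c (s + 1)) j ≠ enc ω (c s) j) : ℝ)
        ≤ ∑ s ∈ range n, ∑ l : Fin b,
          (ind (code (enc ω (c (s + 1)) j) l ≠ code (enc ω (c s) j) l) : ℝ) := by
          refine sum_le_sum fun s _ => ?_
          by_cases h : enc ω (c (s + 1)) j = enc ω (c s) j
          · rw [ind_neg (by simpa using h)]
            push_cast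
            exact sum_nonneg fun _ _ => Nat.cast_nonneg _
          · rw [ind_pos h]
            obtain ⟨l, hl⟩ : ∃ l, code (enc ω (c (s + 1)) j) l ≠
                code (enc ω (c s) j) l := by
              by_contra hcon
              push Not at hcon
              exact h (hcode (funext hcon))
            calc ((1 : ℕ) : ℝ) = (ind (code (enc ω (c (s + 1)) j) l ≠
                  code (enc ω (c s) j) l) : ℝ) := by rw [ind_pos hl]
              _ ≤ _ := single_le_sum (f := fun l => (ind (code (enc ω (c (s + 1)) j) l ≠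
                  code (enc ω (c s) j) l) : ℝ)) (fun _ _ => Nat.cast_nonneg _) (mem_univ l)
      _ = ∑ l : Fin b, ∑ s ∈ range n,
          (ind (code (enc ω (c (s + 1)) j) l ≠ code (enc ω (c s) j) l) : ℝ) :=
          sum_comm
      _ ≤ ∑ _l : Fin b, ((2 : ℝ) ^ (t + 1) - 1) := sum_le_sum fun l _ => h1 ω j l
      _ = _ := by rw [sum_const, card_univ, Fintype.card_fin, nsmul_eq_mul]
  have h3 : ∀ s ∈ range n, (1 - 2 * e) * γ * (Fintype.card Ω * Fintype.card J : ℝ) ≤
      ∑ ω, ∑ j, (ind (enc ω (c (s + 1)) j ≠ enc ω (c s) j) : ℝ) := by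
    intro s hs
    rw [mem_range] at hs
    have hfs := hf s hs
    have hpt : ∀ ω, good ω (c s) ∧ good ω (c (s + 1)) → γ * (Fintype.card J : ℝ) ≤
        ∑ j, (ind (enc ω (c (s + 1)) j ≠ enc ω (c s) j) : ℝ) := by
      intro ω hω
      have hcard : ∑ j, (ind (enc ω (c (s + 1)) j ≠ enc ω (c s) j) : ℝ) =
          ((univ.filter fun j => enc ω (c (s + 1)) j ≠ enc ω (c s) j).card : ℝ) := by
        rw [← Nat.cast_sum, sum_ind]
        congr!
      rw [hcard]
      cases hx : f (c s)
      · have h4 : f (c (s + 1)) = true := by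
          rw [hx] at hfs
          simpa using hfs
        refine (hgap ω _ _ h4 hx hω.2 hω.1).trans (le_of_eq ?_)
        congr 2
        ext j
        simp only [mem_filter, mem_univ, true_and]
        exact ne_comm
      · have h4 : f (c (s + 1)) = false := by
          rw [hx] at hfs
          simpa using hfs
        exact hgap ω _ _ hx h4 hω.1 hω.2
    calc (1 - 2 * e) * γ * (Fintype.card Ω * Fintype.card J : ℝ)
        = ((1 - 2 * e) * (Fintype.card Ω : ℝ)) * (γ * Fintype.card J) := by ring
      _ ≤ ((univ.filter fun ω => good ω (c s) ∧ good ω (c (s + 1))).card : ℝ) *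
            (γ * Fintype.card J) :=
          mul_le_mul_of_nonneg_right (both_good good hgood _ _) (by positivity)
      _ = ∑ ω ∈ univ.filter (fun ω => good ω (c s) ∧ good ω (c (s + 1))),
            γ * (Fintype.card J : ℝ) := by
          rw [sum_const, nsmul_eq_mul]
      _ ≤ ∑ ω ∈ univ.filter (fun ω => good ω (c s) ∧ good ω (c (s + 1))),
            ∑ j, (ind (enc ω (c (s + 1)) j ≠ enc ω (c s) j) : ℝ) :=
          sum_le_sum fun ω hω => hpt ω (by simpa using hω)
      _ ≤ _ := sum_le_sum_of_subset_of_nonneg (filter_subset _ _) fun ω _ _ =>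
          sum_nonneg fun j _ => Nat.cast_nonneg _
  have h4 : (n : ℝ) * ((1 - 2 * e) * γ * (Fintype.card Ω * Fintype.card J : ℝ)) ≤
      (Fintype.card Ω * Fintype.card J : ℝ) * (b * (2 ^ (t + 1) - 1)) := by
    calc (n : ℝ) * ((1 - 2 * e) * γ * (Fintype.card Ω * Fintype.card J : ℝ))
        = ∑ _s ∈ range n, (1 - 2 * e) * γ * (Fintype.card Ω * Fintype.card J : ℝ) := by simp
      _ ≤ ∑ s ∈ range n, ∑ ω, ∑ j,
            (ind (enc ω (c (s + 1)) j ≠ enc ω (c s) j) : ℝ) := sum_le_sum h3
      _ = ∑ ω, ∑ j, ∑ s ∈ range n,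
            (ind (enc ω (c (s + 1)) j ≠ enc ω (c s) j) : ℝ) := by
          rw [sum_comm]
          exact sum_congr rfl fun ω _ => sum_comm
      _ ≤ ∑ _ω : Ω, ∑ _j : J, (b : ℝ) * (2 ^ (t + 1) - 1) :=
          sum_le_sum fun ω _ => sum_le_sum fun j _ => h2 ω j
      _ = _ := by
          simp only [sum_const, card_univ, nsmul_eq_mul]
          ring
  have h5 : (0 : ℝ) < Fintype.card Ω * Fintype.card J := by positivity
  have h6 : (Fintype.card Ω * Fintype.card J : ℝ) * ((1 - 2 * e) * γ * n) ≤
      (Fintype.card Ω * Fintype.card J : ℝ) * (b * (2 ^ (t + 1) - 1)) := by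
    calc _ = (n : ℝ) * ((1 - 2 * e) * γ * (Fintype.card Ω * Fintype.card J : ℝ)) := by ring
      _ ≤ _ := h4
  exact le_of_mul_le_mul_left h6 h5

end Pool.Agent.R562.RS
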