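import Pool.Agent.R562.RS.Core

set_option autoImplicit false

/-!
# Functions of few unate functions
-/

namespace Pool.Agent.R562.RS

open Finset
open scoped Classical

variable {N : ℕ}

/-- `f` is unate: for every variable `i` there is a value `o i` such that changing the variable to
this value never changes `f` from true to false. Every threshold gate with any real weights is
unate. -/
def Unate (f : (Fin N → Bool) → Bool) : Prop :=
  ∃ o : Fin N → Bool, ∀ x i, x i ≠ o i → f x = true → f (flip x i) = true

/-- Threshold gates are unate. -/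
lemma unate_threshold (w : Fin N → ℝ) (θ : ℝ) :
    Unate (fun x => decide (θ ≤ ∑ i, if x i = true then w i else 0)) := by
  refine ⟨fun i => decide (0 ≤ w i), fun x i hi hx => ?_⟩
  rw [decide_eq_true_iff] at hx ⊢
  refine hx.trans ?_
  refine sum_le_sum fun j _ => ?_
  by_cases hj : j = i
  · subst hj
    rw [flip_same]
    by_cases h : 0 ≤ w j
    · have h1 : x j = false := by
        cases hxj : x j
        · rfl
        · simp [hxj, h] at hi
      simp [h1, h]
    · have h1 : x j = true := by
        cases hxj : x j
        · simp [hxj, h] at hi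
        · rfl
      simp only [h1, Bool.not_true, if_true]
      push Not at h
      simpa using h.le
  · rw [flip_ne x hj]

/-- Sum over the cube is invariant under flipping. -/
lemma sum_flip {M : Type} [AddCommMonoid M] (i : Fin N) (g : (Fin N → Bool) → M) :
    ∑ x : Fin N → Bool, g (flip x i) = ∑ x, g x :=
  Fintype.sum_equiv ⟨fun x => flip x i, fun x => flip x i, fun x => flip_flip x i,
    fun x => flip_flip x i⟩ _ _ fun _ => rfl

/-- A unate function has average sensitivity at most `√N`. -/
theorem sens_unate {f : (Fin N → Bool) → Bool} (hf : Unate f) :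
    (sens f : ℝ) ≤ Real.sqrt N * 2 ^ N := by
  obtain ⟨o, ho⟩ := hf
  set F : (Fin N → Bool) → ℝ := fun x => if f x = true then 1 else -1 with hF
  set s : (Fin N → Bool) → Fin N → ℝ := fun x i => if x i = o i then 1 else -1 with hs
  have hsflip : ∀ x i, s (flip x i) i = - s x i := by
    intro x i
    simp only [hs, flip_same]
    cases x i <;> cases o i <;> simp
  have hsflip' : ∀ x i j, j ≠ i → s (flip x i) j = s x j := by
    intro x i j h
    simp only [hs, flip_ne x h]
  have h1 : ∀ i, ∑ x : Fin N → Bool, (ind (f (flip x i) ≠ f x) : ℝ) = ∑ x, F x * s x i := by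
    intro i
    have h2 : ∑ x : Fin N → Bool, F x * s x i = ∑ x, F (flip x i) * s (flip x i) i :=
      (sum_flip i fun x => F x * s x i).symm
    have h3 : ∑ x : Fin N → Bool, (F x * s x i + F (flip x i) * s (flip x i) i) =
        ∑ x : Fin N → Bool, 2 * (ind (f (flip x i) ≠ f x) : ℝ) := by
      refine sum_congr rfl fun x _ => ?_
      rw [hsflip]
      by_cases hxo : x i = o i
      · have h4 : flip x i i ≠ o i := by
          rw [flip_same, ← hxo]
          cases x i <;> decide
        have h5 := ho (flip x i) i h4
        rw [flip_flip] at h5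
        simp only [hF, hs, hxo, if_true]
        cases hfx : f x <;> cases hfx' : f (flip x i)
        · simp [ind]
        · exact absurd (h5 hfx') (by simp [hfx])
        · simp [ind]; norm_num
        · simp [ind]
      · have h5 := ho x i hxo
        simp only [hF, hs, hxo, if_false]
        cases hfx : f x <;> cases hfx' : f (flip x i)
        · simp [ind]
        · simp [ind]; norm_num
        · exact absurd (h5 hfx) (by simp [hfx'])
        · simp [ind]
    rw [sum_add_distrib, ← h2, ← mul_sum] at h3
    linarith
  have h2 : (sens f : ℝ) = ∑ x, F x * ∑ i, s x i := by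
    unfold sens
    push_cast
    rw [sum_comm, sum_congr rfl fun i _ => h1 i, sum_comm]
    exact sum_congr rfl fun x _ => by rw [mul_sum]
  have h3 : ∀ i j, ∑ x, s x i * s x j = if i = j then (2 : ℝ) ^ N else 0 := by
    intro i j
    by_cases hij : i = j
    · subst hij
      rw [if_pos rfl]
      have : ∀ x, s x i * s x i = 1 := by
        intro x
        simp only [hs]
        split_ifs <;> norm_num
      rw [sum_congr rfl fun x _ => this x]
      simp
    · rw [if_neg hij]
      have h4 := sum_flip i fun x => s x i * s x j
      simp only [hsflip, hsflip' _ i j (Ne.symm hij), neg_mul, sum_neg_distrib] at h4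
      linarith
  have h4 : ∑ x, (∑ i, s x i) ^ 2 = N * 2 ^ N := by
    calc ∑ x, (∑ i, s x i) ^ 2 = ∑ x, ∑ i, ∑ j, s x i * s x j :=
          sum_congr rfl fun x _ => by rw [sq, sum_mul_sum]
      _ = ∑ i, ∑ j, ∑ x, s x i * s x j := by
          rw [sum_comm]
          exact sum_congr rfl fun i _ => sum_comm
      _ = _ := by
          simp only [h3, sum_ite_eq, mem_univ, if_true, sum_const, card_univ, Fintype.card_fin,
            nsmul_eq_mul]
  have h5 : (sens f : ℝ) ^ 2 ≤ 2 ^ N * (N * 2 ^ N) := by
    rw [h2, ← h4]
    have h6 : ∑ x : Fin N → Bool, F x ^ 2 = 2 ^ N := by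
      have : ∀ x, F x ^ 2 = 1 := by
        intro x
        simp only [hF]
        split_ifs <;> norm_num
      rw [sum_congr rfl fun x _ => this x]
      simp
    rw [← h6]
    exact sum_mul_sq_le_sq_mul_sq _ _ _
  have h6 : 0 ≤ Real.sqrt N * 2 ^ N := by positivity
  refine le_of_sq_le_sq ?_ h6
  rw [mul_pow, Real.sq_sqrt (Nat.cast_nonneg _)]
  calc (sens f : ℝ) ^ 2 ≤ 2 ^ N * (N * 2 ^ N) := h5
    _ = _ := by ring

/-- A function of `m` unate functions has average sensitivity at most `m √N`. -/
theorem sens_few_unate {α : Type} {m : ℕ} (g : Fin m → (Fin N → Bool) → Bool)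
    (hg : ∀ l, Unate (g l)) (G : (Fin m → Bool) → α) :
    (sens (fun x => G fun l => g l x) : ℝ) ≤ m * Real.sqrt N * 2 ^ N := by
  have h1 := sens_comp (fun x l => g l x) G
  have h2 := sens_tuple fun (x : Fin N → Bool) (l : Fin m) => g l x
  calc (sens (fun x => G fun l => g l x) : ℝ) ≤ sens fun (x : Fin N → Bool) (l : Fin m) => g l x :=
        by exact_mod_cast h1
    _ ≤ ((∑ l, sens (g l) : ℕ) : ℝ) := by exact_mod_cast h2
    _ = ∑ l, (sens (g l) : ℝ) := by push_cast; rfl
    _ ≤ ∑ _l : Fin m, Real.sqrt N * 2 ^ N := sum_le_sum fun l _ => sens_unate (hg l)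
    _ = _ := by simp [mul_assoc]

end Pool.Agent.R562.RS
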