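import Pool.Agent.R562.RS.Khr
import Pool.Agent.R562.RS.Neg
import Pool.Agent.R562.RS.Unate
import Pool.Agent.R562.RS.Quant

set_option autoImplicit false

/-!
# Reductions to projection games
-/

namespace Pool.Agent.R562.RS

open Finset
open scoped Classical

section Defs

variable {J U V A B : Type} [Fintype J] [Fintype A]

/-- A game is a list `g j`, `j : J`, of constraints. The constraint `(u, v, π)` is satisfied if `π`
maps the label of `u` to the label of `v`. The game is `t`-to-1 if all fibres of the maps have at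
most `t` elements. -/
def ToOne (t : ℕ) (g : J → U × V × (A → B)) : Prop :=
  ∀ j b, (univ.filter fun a => (g j).2.2 a = b).card ≤ t

/-- The labels satisfy the constraint. -/
def Sat (c : U × V × (A → B)) (L : U → A) (M : V → B) : Prop := c.2.2 (L c.1) = M c.2.1

/-- `t`-to-1 games of value one. -/
def ValueOne (t : ℕ) (g : J → U × V × (A → B)) : Prop :=
  ToOne t g ∧ ∃ (L : U → A) (M : V → B), ∀ j, Sat (g j) L M

/-- `t`-to-1 games of value at most `δ`. -/
def ValueLe (t : ℕ) (δ : ℝ) (g : J → U × V × (A → B)) : Prop :=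
  ToOne t g ∧ ∀ (L : U → A) (M : V → B),
    ((univ.filter fun j => Sat (g j) L M).card : ℝ) ≤ δ * Fintype.card J

/-- A game of value one and a game of value at most `δ` differ in a fraction `1 - δ` of the
constraints. -/
theorem game_gap {t : ℕ} {δ : ℝ} {g g' : J → U × V × (A → B)} (h : ValueOne t g)
    (h' : ValueLe t δ g') :
    (1 - δ) * (Fintype.card J : ℝ) ≤ (univ.filter fun j => g' j ≠ g j).card := by
  obtain ⟨_, L, M, hLM⟩ := h
  have h1 := h'.2 L M
  have h2 : (univ.filter fun j => g' j = g j) ⊆ univ.filter fun j => Sat (g' j) L M := by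
    intro j hj
    simp only [mem_filter, mem_univ, true_and] at hj ⊢
    rw [hj]
    exact hLM j
  have h3 := card_le_card h2
  have h4 := card_filter_add_card_filter_not (s := (univ : Finset J)) (fun j => g' j = g j)
  have h5 : ((univ.filter fun j => g' j = g j).card : ℝ) +
      ((univ.filter fun j => ¬ g' j = g j).card : ℝ) = Fintype.card J := by
    rw [← Nat.cast_add, h4, card_univ]
  have h6 : ((univ.filter fun j => g' j = g j).card : ℝ) ≤
      (univ.filter fun j => Sat (g' j) L M).card := by exact_mod_cast h3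
  have h7 : ((univ.filter fun j => g' j ≠ g j).card : ℝ) =
      ((univ.filter fun j => ¬ g' j = g j).card : ℝ) := rfl
  rw [h7]
  linarith

/-- The game `g` is a correct output for an input with the answer `a`: it has value one if `a` is
true and value at most `δ` if `a` is false. -/
def GameCorrect (t : ℕ) (δ : ℝ) (a : Bool) (g : J → U × V × (A → B)) : Prop :=
  (a = true → ValueOne t g) ∧ (a = false → ValueLe t δ g)

/-- The games `g ω x`, where `ω` is a random seed, are computed by a randomized reduction from `f`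
to the gap problem of `t`-to-1 games (value one versus value at most `δ`) with error probability
`e`: for every input `x` the output is correct for at least a fraction `1 - e` of the seeds. -/
def GameReduction {N : ℕ} {Ω : Type} [Fintype Ω] (t : ℕ) (δ e : ℝ) (f : (Fin N → Bool) → Bool)
    (g : Ω → (Fin N → Bool) → J → U × V × (A → B)) : Prop :=
  ∀ x, (1 - e) * (Fintype.card Ω : ℝ) ≤
    (univ.filter fun ω => GameCorrect t δ (f x) (g ω x)).card

variable {N : ℕ} {Ω : Type} [Fintype Ω] [Nonempty Ω] [Nonempty J]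

theorem game_avg {f : (Fin N → Bool) → Bool} {g : Ω → (Fin N → Bool) → J → U × V × (A → B)}
    {t : ℕ} {δ e s : ℝ} (hδ : δ ≤ 1) (hr : GameReduction t δ e f g)
    (hs : ∀ ω j, (sens (fun x => g ω x j) : ℝ) ≤ s * 2 ^ N) :
    (1 - 2 * e) * (1 - δ) * avgSens f ≤ s :=
  avg_le f g (fun ω x => GameCorrect t δ (f x) (g ω x)) (by linarith) hr
    (fun _ _ _ h1 h2 h3 h4 => by convert game_gap (h3.1 h1) (h4.2 h2)) hs

/-- Quantum queries. -/
theorem game_quantum {f : (Fin N → Bool) → Bool} {g : Ω → (Fin N → Bool) → J → U × V × (A → B)}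
    {t T : ℕ} {δ e q : ℝ} (hδ : δ ≤ 1) (hq0 : 0 ≤ q) (hq : q ≤ 1 / 2)
    (hr : GameReduction t δ e f g)
    (hA : ∀ ω j, ∃ Q : QuantumAlgorithm N T (U × V × (A → B)), ∀ x, 1 - q ≤ Q.prob x (g ω x j)) :
    (1 - 2 * Real.sqrt (q * (1 - q))) * ((1 - 2 * e) * (1 - δ) * avgSens f) ≤ 2 * T := by
  have hκ : 0 ≤ 1 - 2 * Real.sqrt (q * (1 - q)) := by
    have h1 : Real.sqrt (q * (1 - q)) ≤ Real.sqrt ((1 / 2) ^ 2) :=
      Real.sqrt_le_sqrt (by nlinarith [sq_nonneg (q - 1 / 2)])
    rw [Real.sqrt_sq (by norm_num)] at h1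
    linarith
  rcases hκ.eq_or_lt with h0 | h0
  · rw [← h0, zero_mul]
    positivity
  · have h1 := game_avg (s := 2 * T / (1 - 2 * Real.sqrt (q * (1 - q)))) hδ hr (by
      intro ω j
      obtain ⟨Q, hQ⟩ := hA ω j
      have h2 := Q.sens_le hq0 hq hQ
      rw [div_mul_eq_mul_div, le_div_iff₀ h0, mul_comm]
      exact h2)
    rw [le_div_iff₀ h0] at h1
    linarith

/-- Formulas. -/
theorem game_formula {f : (Fin N → Bool) → Bool} {g : Ω → (Fin N → Bool) → J → U × V × (A → B)}
    {t b S : ℕ} {δ e : ℝ} (hδ : δ ≤ 1) (code : U × V × (A → B) → Fin b → Bool)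
    (hcode : Function.Injective code) (hr : GameReduction t δ e f g)
    (hF : ∀ ω j l, ∃ F : Formula N, F.size ≤ S ∧ ∀ x, F.eval x = code (g ω x j) l) :
    (1 - 2 * e) * (1 - δ) * avgSens f ≤ b * Real.sqrt S := by
  refine game_avg hδ hr fun ω j => ?_
  rw [mul_assoc]
  refine sens_encode _ code hcode fun l => ?_
  obtain ⟨F, hL, hF⟩ := hF ω j l
  have h1 : (fun x => code (g ω x j) l) = F.eval := funext fun x => (hF x).symm
  rw [h1]
  refine (sens_formula F).trans ?_
  have h2 : Real.sqrt F.size ≤ Real.sqrt S := Real.sqrt_le_sqrt (by exact_mod_cast hL)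
  exact mul_le_mul_of_nonneg_right h2 (by positivity)

/-- Unate functions. -/
theorem game_unate {f : (Fin N → Bool) → Bool} {g : Ω → (Fin N → Bool) → J → U × V × (A → B)}
    {t b m : ℕ} {δ e : ℝ} (hδ : δ ≤ 1) (code : U × V × (A → B) → Fin b → Bool)
    (hcode : Function.Injective code) (hr : GameReduction t δ e f g)
    (hF : ∀ ω j l, ∃ (h : Fin m → (Fin N → Bool) → Bool) (G : (Fin m → Bool) → Bool),
        (∀ i, Unate (h i)) ∧ ∀ x, code (g ω x j) l = G fun i => h i x) :
    (1 - 2 * e) * (1 - δ) * avgSens f ≤ b * (m * Real.sqrt N) := by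
  refine game_avg hδ hr fun ω j => ?_
  rw [mul_assoc]
  refine sens_encode _ code hcode fun l => ?_
  obtain ⟨h, G, hg, hG⟩ := hF ω j l
  have h1 : (fun x => code (g ω x j) l) = fun x => G fun i => h i x := funext hG
  rw [h1]
  exact sens_few_unate h hg G

/-- NOT gates. -/
theorem game_not {f : (Fin N → Bool) → Bool} {g : Ω → (Fin N → Bool) → J → U × V × (A → B)}
    {t b r n : ℕ} {δ e : ℝ} (hδ : δ ≤ 1) (c : ℕ → Fin N → Bool)
    (hc : ∀ s i, c s i ≤ c (s + 1) i) (hf : ∀ s < n, f (c (s + 1)) ≠ f (c s))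
    (code : U × V × (A → B) → Fin b → Bool)
    (hcode : Function.Injective code) (hr : GameReduction t δ e f g)
    (hC : ∀ ω, ∃ C : NotCircuit N r (J × Fin b), ∀ x j l, C.out x (j, l) = code (g ω x j) l) :
    (1 - 2 * e) * (1 - δ) * n ≤ b * (2 ^ (r + 1) - 1) := by
  choose C hC using hC
  exact not_gates f c hc n hf g code hcode C (fun ω x j l => hC ω x j l)
    (fun ω x => GameCorrect t δ (f x) (g ω x)) (by linarith) hr
    (fun _ _ _ h1 h2 h3 h4 => by convert game_gap (h3.1 h1) (h4.2 h2))

end Defs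

end Pool.Agent.R562.RS
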