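import Pool.Agent.R562.RS.Core

set_option autoImplicit false

/-!
# Formulas: Khrapchenko's bound
-/

namespace Pool.Agent.R562.RS

open Finset
open scoped Classical

/-- De Morgan formulas with `N` variables: a leaf reads a literal (the variable `i` or its negation)
and the inner nodes are AND and OR gates with two inputs. -/
inductive Formula (N : ℕ) : Type
  | lit (i : Fin N) (b : Bool) : Formula N
  | and (F G : Formula N) : Formula N
  | or (F G : Formula N) : Formula N

namespace Formula

variable {N : ℕ}

/-- The value of a formula; the leaf `lit i b` is true if the variable `i` has the value `b`. -/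
def eval : Formula N → (Fin N → Bool) → Bool
  | lit i b, x => x i == b
  | and F G, x => F.eval x && G.eval x
  | or F G, x => F.eval x || G.eval x

/-- The size of a formula: the number of its leaves. -/
def size : Formula N → ℕ
  | lit _ _ => 1
  | and F G => F.size + G.size
  | or F G => F.size + G.size

end Formula

/-- The pairs of neighbours in `A × B`. -/
noncomputable def nbs {N : ℕ} (A B : Finset (Fin N → Bool)) : ℕ :=
  ((univ : Finset ((Fin N → Bool) × Fin N)).filter fun p => p.1 ∈ A ∧ flip p.1 p.2 ∈ B).card

variable {N : ℕ}

lemma nbs_union_left (A A' B : Finset (Fin N → Bool)) (h : Disjoint A A') :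
    nbs (A ∪ A') B = nbs A B + nbs A' B := by
  unfold nbs
  rw [← card_union_of_disjoint]
  · congr 1
    ext p
    simp only [mem_filter, mem_univ, true_and, mem_union]
    tauto
  · rw [disjoint_left]
    intro p hp hp'
    simp only [mem_filter, mem_univ, true_and] at hp hp'
    exact disjoint_left.1 h hp.1 hp'.1

lemma nbs_comm (A B : Finset (Fin N → Bool)) : nbs A B = nbs B A := by
  unfold nbs
  refine card_bij (fun p _ => (flip p.1 p.2, p.2)) ?_ ?_ ?_
  · intro p hp
    simp only [mem_filter, mem_univ, true_and, flip_flip] at hp ⊢
    exact ⟨hp.2, hp.1⟩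
  · intro p _ q _ h
    simp only [Prod.mk.injEq] at h
    obtain ⟨h1, h2⟩ := h
    refine Prod.ext ?_ h2
    rw [← flip_flip p.1 p.2, h1, h2, flip_flip]
  · intro p hp
    simp only [mem_filter, mem_univ, true_and] at hp
    refine ⟨(flip p.1 p.2, p.2), ?_, ?_⟩
    · simp only [mem_filter, mem_univ, true_and, flip_flip]
      exact ⟨hp.2, hp.1⟩
    · simp [flip_flip]

/-- Khrapchenko's inequality. -/
theorem khr (F : Formula N) : ∀ A B : Finset (Fin N → Bool),
    (∀ x ∈ A, F.eval x = false) → (∀ x ∈ B, F.eval x = true) →
    (nbs A B : ℝ) ≤ Real.sqrt (F.size * (A.card * B.card)) := by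
  have step : ∀ (a b c p q : ℝ), 0 ≤ a → 0 ≤ b → 0 ≤ c → 0 ≤ p → 0 ≤ q →
      Real.sqrt (p * (a * c)) + Real.sqrt (q * (b * c)) ≤
        Real.sqrt ((p + q) * ((a + b) * c)) := by
    intro a b c p q ha hb hc hp hq
    have h1 : Real.sqrt (p * (a * c)) = Real.sqrt p * Real.sqrt (a * c) := Real.sqrt_mul hp _
    have h2 : Real.sqrt (q * (b * c)) = Real.sqrt q * Real.sqrt (b * c) := Real.sqrt_mul hq _
    rw [h1, h2]
    apply Real.le_sqrt_of_sq_le
    have e1 := Real.sq_sqrt hp
    have e2 := Real.sq_sqrt hq
    have e3 := Real.sq_sqrt (mul_nonneg ha hc)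
    have e4 := Real.sq_sqrt (mul_nonneg hb hc)
    nlinarith [sq_nonneg (Real.sqrt p * Real.sqrt (b * c) - Real.sqrt q * Real.sqrt (a * c))]
  induction F with
  | lit i b =>
    intro A B hA hB
    have h1 : nbs A B ≤ A.card := by
      unfold nbs
      refine card_le_card_of_injOn (fun p => p.1) ?_ ?_
      · intro p hp
        simp only [coe_filter, Set.mem_setOf_eq, mem_univ, true_and] at hp
        exact hp.1
      · intro p hp q hq h
        simp only [coe_filter, Set.mem_setOf_eq, mem_univ, true_and] at hp hq
        have key : ∀ r : (Fin N → Bool) × Fin N, r.1 ∈ A ∧ flip r.1 r.2 ∈ B → r.2 = i := by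
          intro r hr
          by_contra hne
          have h1 := hA _ hr.1
          have h2 := hB _ hr.2
          simp only [Formula.eval] at h1 h2
          rw [flip_ne _ (Ne.symm hne)] at h2
          rw [h2] at h1
          exact absurd h1 (by decide)
        exact Prod.ext h ((key p hp).trans (key q hq).symm)
    have h2 : nbs A B ≤ B.card := by
      rw [nbs_comm]
      unfold nbs
      refine card_le_card_of_injOn (fun p => p.1) ?_ ?_
      · intro p hp
        simp only [coe_filter, Set.mem_setOf_eq, mem_univ, true_and] at hp
        exact hp.1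
      · intro p hp q hq h
        simp only [coe_filter, Set.mem_setOf_eq, mem_univ, true_and] at hp hq
        have key : ∀ r : (Fin N → Bool) × Fin N, r.1 ∈ B ∧ flip r.1 r.2 ∈ A → r.2 = i := by
          intro r hr
          by_contra hne
          have h1 := hB _ hr.1
          have h2 := hA _ hr.2
          simp only [Formula.eval] at h1 h2
          rw [flip_ne _ (Ne.symm hne)] at h2
          rw [h2] at h1
          exact absurd h1 (by decide)
        exact Prod.ext h ((key p hp).trans (key q hq).symm)
    apply Real.le_sqrt_of_sq_le
    have h1' : (nbs A B : ℝ) ≤ A.card := by exact_mod_cast h1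
    have h2' : (nbs A B : ℝ) ≤ B.card := by exact_mod_cast h2
    simp only [Formula.size, Nat.cast_one, one_mul]
    calc (nbs A B : ℝ) ^ 2 = nbs A B * nbs A B := by ring
      _ ≤ A.card * B.card := mul_le_mul h1' h2' (Nat.cast_nonneg _) (Nat.cast_nonneg _)
  | and F G ihF ihG =>
    intro A B hA hB
    have hd : Disjoint (A.filter fun x => F.eval x = false)
        (A.filter fun x => ¬ F.eval x = false) := disjoint_filter_filter_not _ _ _
    have hu : (A.filter fun x => F.eval x = false) ∪ (A.filter fun x => ¬ F.eval x = false) = A :=
      filter_union_filter_not_eq _ _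
    have hB1 : ∀ x ∈ B, F.eval x = true := fun x hx => by
      have := hB x hx
      simp only [Formula.eval, Bool.and_eq_true] at this
      exact this.1
    have hB2 : ∀ x ∈ B, G.eval x = true := fun x hx => by
      have := hB x hx
      simp only [Formula.eval, Bool.and_eq_true] at this
      exact this.2
    have h1 := ihF (A.filter fun x => F.eval x = false) B
      (fun x hx => (mem_filter.1 hx).2) hB1
    have h2 := ihG (A.filter fun x => ¬ F.eval x = false) B (fun x hx => by
      rw [mem_filter] at hx
      have h3 := hA x hx.1
      simp only [Formula.eval, Bool.and_eq_false_iff] at h3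
      exact h3.resolve_left hx.2) hB2
    have h3 : (A.card : ℝ) = (A.filter fun x => F.eval x = false).card +
        (A.filter fun x => ¬ F.eval x = false).card := by
      rw [← Nat.cast_add, ← card_union_of_disjoint hd, hu]
    calc (nbs A B : ℝ) = (nbs (A.filter fun x => F.eval x = false) B : ℝ) +
          nbs (A.filter fun x => ¬ F.eval x = false) B := by
          rw [← Nat.cast_add, ← nbs_union_left _ _ _ hd, hu]
      _ ≤ _ := add_le_add h1 h2
      _ ≤ _ := step _ _ _ _ _ (Nat.cast_nonneg _) (Nat.cast_nonneg _) (Nat.cast_nonneg _)
          (Nat.cast_nonneg _) (Nat.cast_nonneg _)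
      _ = _ := by rw [← h3]; simp only [Formula.size]; push_cast; rfl
  | or F G ihF ihG =>
    intro A B hA hB
    have hd : Disjoint (B.filter fun x => F.eval x = true)
        (B.filter fun x => ¬ F.eval x = true) := disjoint_filter_filter_not _ _ _
    have hu : (B.filter fun x => F.eval x = true) ∪ (B.filter fun x => ¬ F.eval x = true) = B :=
      filter_union_filter_not_eq _ _
    have hA1 : ∀ x ∈ A, F.eval x = false := fun x hx => by
      have := hA x hx
      simp only [Formula.eval, Bool.or_eq_false_iff] at this
      exact this.1
    have hA2 : ∀ x ∈ A, G.eval x = false := fun x hx => by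
      have := hA x hx
      simp only [Formula.eval, Bool.or_eq_false_iff] at this
      exact this.2
    have h1 := ihF A (B.filter fun x => F.eval x = true) hA1
      (fun x hx => (mem_filter.1 hx).2)
    have h2 := ihG A (B.filter fun x => ¬ F.eval x = true) hA2 (fun x hx => by
      rw [mem_filter] at hx
      have h3 := hB x hx.1
      simp only [Formula.eval, Bool.or_eq_true] at h3
      exact h3.resolve_left hx.2)
    have h3 : (B.card : ℝ) = (B.filter fun x => F.eval x = true).card +
        (B.filter fun x => ¬ F.eval x = true).card := by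
      rw [← Nat.cast_add, ← card_union_of_disjoint hd, hu]
    calc (nbs A B : ℝ) = (nbs A (B.filter fun x => F.eval x = true) : ℝ) +
          nbs A (B.filter fun x => ¬ F.eval x = true) := by
          rw [nbs_comm A B, nbs_comm A (B.filter fun x => F.eval x = true),
            nbs_comm A (B.filter fun x => ¬ F.eval x = true), ← Nat.cast_add,
            ← nbs_union_left _ _ _ hd, hu]
      _ ≤ Real.sqrt (F.size * ((B.filter fun x => F.eval x = true).card * A.card)) +
            Real.sqrt (G.size * ((B.filter fun x => ¬ F.eval x = true).card * A.card)) := by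
          rw [mul_comm (A.card : ℝ)] at h1 h2
          exact add_le_add h1 h2
      _ ≤ _ := step _ _ _ _ _ (Nat.cast_nonneg _) (Nat.cast_nonneg _) (Nat.cast_nonneg _)
          (Nat.cast_nonneg _) (Nat.cast_nonneg _)
      _ = _ := by
          rw [← h3, mul_comm (B.card : ℝ)]
          simp only [Formula.size]
          push_cast
          rfl

/-- A formula of size `L` has average sensitivity at most `√L`. -/
theorem sens_formula (F : Formula N) : (sens F.eval : ℝ) ≤ Real.sqrt F.size * 2 ^ N := by
  set A : Finset (Fin N → Bool) := univ.filter fun x => F.eval x = false with hA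
  set B : Finset (Fin N → Bool) := univ.filter fun x => F.eval x = true with hB
  have h1 : sens F.eval = nbs A B + nbs B A := by
    have h2 : sens F.eval = ((univ : Finset ((Fin N → Bool) × Fin N)).filter
        fun p => F.eval (flip p.1 p.2) ≠ F.eval p.1).card := by
      unfold sens
      rw [← sum_product', univ_product_univ, sum_ind]
      congr!
    rw [h2]
    unfold nbs
    rw [← card_union_of_disjoint]
    · congr 1
      ext p
      simp only [hA, hB, mem_filter, mem_univ, true_and, mem_union]
      cases F.eval (flip p.1 p.2) <;> cases F.eval p.1 <;> simp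
    · rw [disjoint_left]
      intro p hp hp'
      simp only [hA, hB, mem_filter, mem_univ, true_and] at hp hp'
      rw [hp.1] at hp'
      exact absurd hp'.1 (by decide)
  have h3 := khr F A B (fun x hx => (mem_filter.1 hx).2) (fun x hx => (mem_filter.1 hx).2)
  have h4 : A.card + B.card = 2 ^ N := by
    have h5 : B = univ.filter fun x => ¬ F.eval x = false := by
      rw [hB]
      ext x
      simp
    rw [hA, h5, card_filter_add_card_filter_not]
    simp
  have h5 : (A.card : ℝ) + B.card = 2 ^ N := by exact_mod_cast h4
  have h6 : 4 * ((A.card : ℝ) * B.card) ≤ (2 ^ N) ^ 2 := by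
    rw [← h5]
    nlinarith [sq_nonneg ((A.card : ℝ) - B.card)]
  rw [h1, nbs_comm B A]
  push_cast
  have h7 : 2 * Real.sqrt (F.size * (A.card * B.card)) ≤ Real.sqrt F.size * 2 ^ N := by
    have h8 : 2 * Real.sqrt (F.size * (A.card * B.card)) =
        Real.sqrt (F.size * (4 * (A.card * B.card))) := by
      have h9 : (F.size : ℝ) * (4 * (A.card * B.card)) = 2 ^ 2 * (F.size * (A.card * B.card)) := by
        ring
      rw [h9, Real.sqrt_mul (show (0 : ℝ) ≤ 2 ^ 2 by norm_num),
        Real.sqrt_sq (show (0 : ℝ) ≤ 2 by norm_num)]
    rw [h8]
    calc Real.sqrt (F.size * (4 * (A.card * B.card))) ≤ Real.sqrt (F.size * (2 ^ N) ^ 2) :=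
          Real.sqrt_le_sqrt (mul_le_mul_of_nonneg_left h6 (Nat.cast_nonneg _))
      _ = _ := by rw [Real.sqrt_mul (Nat.cast_nonneg _), Real.sqrt_sq (by positivity)]
  linarith

end Pool.Agent.R562.RS
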