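import Pool.Agent.R562.RS.Khr
import Pool.Agent.R562.RS.Neg
import Pool.Agent.R562.RS.Unate
import Pool.Agent.R562.RS.Quant

set_option autoImplicit false

/-!
# Reductions to small-set expansion
-/

namespace Pool.Agent.R562.RS

open Finset
open scoped Classical

section Defs

variable {V : Type} {d : ℕ}

/-- `nb` consists of the adjacency lists of the `d`-regular graph `G`: the neighbours of `v` are the
`d` different vertices `nb v 0, ..., nb v (d - 1)`. -/
def Lists (nb : V → Fin d → V) (G : SimpleGraph V) : Prop :=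
  ∀ v, Function.Injective (nb v) ∧ ∀ w, G.Adj v w ↔ ∃ j, nb v j = w

variable [Fintype V]

/-- The number of edges with exactly one endpoint in `S`. -/
noncomputable def cut (G : SimpleGraph V) (S : Finset V) : ℕ :=
  (univ.filter fun p : V × V => p.1 ∈ S ∧ p.2 ∉ S ∧ G.Adj p.1 p.2).card

/-- A yes instance of small-set expansion, given by adjacency lists: a `d`-regular graph in which
some set of `k` vertices has expansion at most `ε`. -/
def SseYes (nb : V → Fin d → V) (k : ℕ) (ε : ℝ) : Prop :=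
  ∃ G, Lists nb G ∧ ∃ S : Finset V, S.card = k ∧ (cut G S : ℝ) ≤ ε * (d * k)

/-- A no instance of small-set expansion, given by adjacency lists: a `d`-regular graph in which all
sets of `k` vertices have expansion at least `1 - η`. -/
def SseNo (nb : V → Fin d → V) (k : ℕ) (η : ℝ) : Prop :=
  ∃ G, Lists nb G ∧ ∀ S : Finset V, S.card = k → (1 - η) * (d * k) ≤ cut G S

lemma cut_eq {nb : V → Fin d → V} {G : SimpleGraph V} (h : Lists nb G) (S : Finset V) :
    cut G S = (univ.filter fun p : V × Fin d => p.1 ∈ S ∧ nb p.1 p.2 ∉ S).card := by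
  unfold cut
  symm
  refine card_bij (fun p _ => (p.1, nb p.1 p.2)) ?_ ?_ ?_
  · intro p hp
    simp only [mem_filter, mem_univ, true_and] at hp ⊢
    exact ⟨hp.1, hp.2, (h p.1).2 _ |>.2 ⟨p.2, rfl⟩⟩
  · intro p _ q _ he
    simp only [Prod.mk.injEq] at he
    obtain ⟨h1, h2⟩ := he
    refine Prod.ext h1 ?_
    rw [h1] at h2
    exact (h q.1).1 h2
  · intro p hp
    simp only [mem_filter, mem_univ, true_and] at hp
    obtain ⟨j, hj⟩ := ((h p.1).2 p.2).1 hp.2.2
    refine ⟨(p.1, j), ?_, ?_⟩
    · simp only [mem_filter, mem_univ, true_and, hj]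
      exact ⟨hp.1, hp.2.1⟩
    · simp only [hj]

/-- A yes instance and a no instance differ in a constant fraction of the entries of the lists. -/
theorem sse_gap {nb nb' : V → Fin d → V} {k : ℕ} {ε η : ℝ} (hd : 1 ≤ d) (hk : 1 ≤ k)
    (h : SseYes nb k ε) (h' : SseNo nb' k η) :
    (1 - ε - η) * (k / Fintype.card V) * (Fintype.card (V × Fin d) : ℝ) ≤
      (univ.filter fun p : V × Fin d => nb' p.1 p.2 ≠ nb p.1 p.2).card := by
  obtain ⟨G, hG, S, hS, hcut⟩ := h
  obtain ⟨G', hG', hno⟩ := h'
  have h1 := hno S hS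
  rw [cut_eq hG'] at h1
  rw [cut_eq hG] at hcut
  have h2 : (univ.filter fun p : V × Fin d => p.1 ∈ S ∧ nb' p.1 p.2 ∉ S) ⊆
      (univ.filter fun p : V × Fin d => p.1 ∈ S ∧ nb p.1 p.2 ∉ S) ∪
      (univ.filter fun p : V × Fin d => nb' p.1 p.2 ≠ nb p.1 p.2) := by
    intro p hp
    simp only [mem_filter, mem_univ, true_and, mem_union] at hp ⊢
    by_cases he : nb' p.1 p.2 = nb p.1 p.2
    · left
      rw [← he]
      exact hp
    · exact Or.inr he
  have h3 := (card_le_card h2).trans (card_union_le _ _)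
  have h4 : ((univ.filter fun p : V × Fin d => p.1 ∈ S ∧ nb' p.1 p.2 ∉ S).card : ℝ) ≤
      (univ.filter fun p : V × Fin d => p.1 ∈ S ∧ nb p.1 p.2 ∉ S).card +
      (univ.filter fun p : V × Fin d => nb' p.1 p.2 ≠ nb p.1 p.2).card := by exact_mod_cast h3
  have hV : (0 : ℝ) < Fintype.card V := by
    have : 0 < S.card := by omega
    obtain ⟨v, _⟩ := card_pos.1 this
    have : Nonempty V := ⟨v⟩
    exact_mod_cast Fintype.card_pos
  have h5 : (1 - ε - η) * (k / Fintype.card V) * (Fintype.card (V × Fin d) : ℝ) =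
      (1 - ε - η) * (d * k) := by
    rw [Fintype.card_prod, Fintype.card_fin]
    push_cast
    field_simp
  rw [h5]
  nlinarith

/-- The adjacency lists `nb` are a correct output for an input with the answer `a`: a yes instance
if `a` is true and a no instance if `a` is false. -/
def SseCorrect (a : Bool) (nb : V → Fin d → V) (k : ℕ) (ε η : ℝ) : Prop :=
  (a = true → SseYes nb k ε) ∧ (a = false → SseNo nb k η)

/-- The adjacency lists `nb ω x`, where `ω` is a random seed, are computed by a randomized reduction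
from `f` to small-set expansion with error probability `e`: for every input `x` they are correct
for at least a fraction `1 - e` of the seeds `ω`. -/
def SseReduction {N : ℕ} {Ω : Type} [Fintype Ω] (f : (Fin N → Bool) → Bool)
    (nb : Ω → (Fin N → Bool) → V → Fin d → V) (k : ℕ) (ε η e : ℝ) : Prop :=
  ∀ x, (1 - e) * (Fintype.card Ω : ℝ) ≤
    (univ.filter fun ω => SseCorrect (f x) (nb ω x) k ε η).card

variable {N : ℕ} {Ω : Type} [Fintype Ω] [Nonempty Ω]

lemma sse_nonempty {f : (Fin N → Bool) → Bool} {nb : Ω → (Fin N → Bool) → V → Fin d → V}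
    {k : ℕ} {ε η e : ℝ} (hd : 1 ≤ d) (hkV : k ≤ Fintype.card V) (hk : 1 ≤ k) :
    Nonempty (V × Fin d) := by
  have : 0 < Fintype.card V := by omega
  obtain ⟨v⟩ := Fintype.card_pos_iff.1 this
  exact ⟨(v, ⟨0, by omega⟩)⟩

theorem sse_avg {f : (Fin N → Bool) → Bool} {nb : Ω → (Fin N → Bool) → V → Fin d → V}
    {k : ℕ} {ε η e s : ℝ} (hd : 1 ≤ d) (hk : 1 ≤ k) (hkV : k ≤ Fintype.card V)
    (hεη : ε + η ≤ 1) (hr : SseReduction f nb k ε η e)
    (hs : ∀ ω v j, (sens (fun x => nb ω x v j) : ℝ) ≤ s * 2 ^ N) :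
    (1 - 2 * e) * ((1 - ε - η) * (k / Fintype.card V)) * avgSens f ≤ s := by
  have := sse_nonempty (f := f) (nb := nb) (ε := ε) (η := η) (e := e) hd hkV hk
  refine avg_le (J := V × Fin d) f (fun ω x p => nb ω x p.1 p.2)
    (fun ω x => SseCorrect (f x) (nb ω x) k ε η)
    ?_ hr ?_ ?_
  · have : 0 ≤ 1 - ε - η := by linarith
    positivity
  · intro ω x x' h1 h2 h3 h4
    exact sse_gap hd hk (h3.1 h1) (h4.2 h2)
  · exact fun ω p => hs ω p.1 p.2

end Defs

end Pool.Agent.R562.RS
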